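import Pool.Agent.H48.Quad.Basic

set_option autoImplicit false

/-!
# Module Aa: the frozen set of bipartite quadrangulations versus pairs on `Fin (2 n)`
-/

namespace Pool.Agent.H48.Quad

open Finset Pool.Agent.H63.Quad

section General

variable {X D : Type} [Fintype X] [Fintype D]

/-- The vertex permutation built from a pair and a labelling. -/
def sg (E : X ⊕ X ≃ D) (p : Equiv.Perm X × Equiv.Perm X) : Equiv.Perm D :=
  E.permCongr (Equiv.Perm.sumCongr p.1 (p.1⁻¹ * p.2))

/-- The edge involution built from a labelling. -/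
def al (E : X ⊕ X ≃ D) : Equiv.Perm D := E.permCongr (Equiv.sumComm X X)

omit [Fintype X] [Fintype D] in
theorem al_inl (E : X ⊕ X ≃ D) (x : X) : al E (E (Sum.inl x)) = E (Sum.inr x) := by
  simp [al]

omit [Fintype X] [Fintype D] in
theorem al_inr (E : X ⊕ X ≃ D) (x : X) : al E (E (Sum.inr x)) = E (Sum.inl x) := by
  simp [al]

omit [Fintype X] [Fintype D] in
theorem sg_inl (E : X ⊕ X ≃ D) (p : Equiv.Perm X × Equiv.Perm X) (x : X) :
    sg E p (E (Sum.inl x)) = E (Sum.inl (p.1 x)) := by
  simp [sg]

omit [Fintype X] [Fintype D] in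
theorem sg_inr (E : X ⊕ X ≃ D) (p : Equiv.Perm X × Equiv.Perm X) (x : X) :
    sg E p (E (Sum.inr x)) = E (Sum.inr (p.1⁻¹ (p.2 x))) := by
  simp [sg]

omit [Fintype X] [Fintype D] in
theorem mp_sum_inl (a b : Equiv.Perm X) (x : X) :
    Function.minimalPeriod (Equiv.Perm.sumCongr a b) (Sum.inl x) = Function.minimalPeriod a x := by
  rw [Function.minimalPeriod_eq_minimalPeriod_iff]
  intro n
  have h : ∀ n : ℕ, (Equiv.Perm.sumCongr a b)^[n] (Sum.inl x) = Sum.inl (a^[n] x) := by
    intro n
    induction n with
    | zero => rfl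
    | succ n ih => rw [Function.iterate_succ_apply', Function.iterate_succ_apply', ih]; rfl
  simp only [Function.IsPeriodicPt, Function.IsFixedPt, h, Sum.inl.injEq]

omit [Fintype X] [Fintype D] in
theorem mp_sum_inr (a b : Equiv.Perm X) (x : X) :
    Function.minimalPeriod (Equiv.Perm.sumCongr a b) (Sum.inr x) = Function.minimalPeriod b x := by
  rw [Function.minimalPeriod_eq_minimalPeriod_iff]
  intro n
  have h : ∀ n : ℕ, (Equiv.Perm.sumCongr a b)^[n] (Sum.inr x) = Sum.inr (b^[n] x) := by
    intro n
    induction n with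
    | zero => rfl
    | succ n ih => rw [Function.iterate_succ_apply', Function.iterate_succ_apply', ih]; rfl
  simp only [Function.IsPeriodicPt, Function.IsFixedPt, h, Sum.inr.injEq]

omit [Fintype D] in
theorem orb_sum (a b : Equiv.Perm X) : orb (Equiv.Perm.sumCongr a b) = orb a + orb b := by
  have h := sum_recip (Equiv.Perm.sumCongr a b)
  rw [Fintype.sum_sum_type] at h
  simp only [mp_sum_inl, mp_sum_inr] at h
  rw [sum_recip, sum_recip] at h
  exact_mod_cast h.symm

theorem orb_sg (E : X ⊕ X ≃ D) (p : Equiv.Perm X × Equiv.Perm X) (hp : Inv2 p.2) :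
    orb (sg E p) = orb p.1 + orb (p.1 * p.2) := by
  rw [sg, orb_conj, orb_sum, orb_inv_mul]
  ext x
  exact (hp x).1

omit [Fintype X] [Fintype D] in
theorem al_inv2 (E : X ⊕ X ≃ D) : Inv2 (al E) := by
  intro d
  obtain ⟨x, rfl⟩ := E.surjective d
  rcases x with x | x
  · rw [al_inl, al_inr]
    exact ⟨rfl, fun h => by simpa using E.injective h⟩
  · rw [al_inr, al_inl]
    exact ⟨rfl, fun h => by simpa using E.injective h⟩

theorem trans_sg (E : X ⊕ X ≃ D) (p : Equiv.Perm X × Equiv.Perm X) :
    Trans (sg E p, al E) ↔ Trans p := by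
  rw [trans_iff, trans_iff]
  constructor
  · intro h T hT hinv y
    -- the set of darts with first coordinate in `T`
    have h1 := h {d | (E.symm d).elim id id ∈ T} ?_ ?_ (E (Sum.inl y))
    · simpa using h1
    · obtain ⟨x, hx⟩ := hT
      exact ⟨E (Sum.inl x), by simpa using hx⟩
    · intro d hd
      obtain ⟨x, rfl⟩ := E.surjective d
      rcases x with x | x
      · have hx : x ∈ T := by simpa using hd
        dsimp only
        rw [al_inl, sg_inl]
        exact ⟨by simpa using (hinv x hx).1, by simpa using hx⟩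
      · have hx : x ∈ T := by simpa using hd
        dsimp only
        rw [al_inr, sg_inr]
        refine ⟨?_, by simpa using hx⟩
        have h2 : p.1⁻¹ (p.2 x) ∈ T :=
          Equiv.Perm.perm_symm_on_of_perm_on_finite (f := p.1) (p := fun x => x ∈ T)
            (fun x hx => (hinv x hx).1) (hinv x hx).2
        simpa using h2
  · intro h T hT hinv
    have hinr : ∀ x, E (Sum.inl x) ∈ T ↔ E (Sum.inr x) ∈ T := by
      intro x
      constructor
      · intro hx
        have := (hinv _ hx).2
        dsimp only at this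
        rwa [al_inl] at this
      · intro hx
        have := (hinv _ hx).2
        dsimp only at this
        rwa [al_inr] at this
    have h1 := h {x | E (Sum.inl x) ∈ T} ?_ ?_
    · intro d
      obtain ⟨x, rfl⟩ := E.surjective d
      rcases x with x | x
      · exact h1 x
      · exact (hinr x).mp (h1 x)
    · obtain ⟨d, hd⟩ := hT
      obtain ⟨x, rfl⟩ := E.surjective d
      rcases x with x | x
      · exact ⟨x, hd⟩
      · exact ⟨x, (hinr x).mpr hd⟩
    · intro x hx
      have hx' : E (Sum.inl x) ∈ T := hx
      have h2 := (hinv _ hx').1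
      dsimp only at h2
      rw [sg_inl] at h2
      refine ⟨h2, ?_⟩
      have h3 := (hinv _ ((hinr x).mp hx')).1
      dsimp only at h3
      rw [sg_inr] at h3
      have h4 := (hinv _ ((hinr _).mpr h3)).1
      dsimp only at h4
      rw [sg_inl] at h4
      have h5 : p.1 (p.1⁻¹ (p.2 x)) = p.2 x := by
        rw [← Equiv.Perm.mul_apply, mul_inv_cancel, Equiv.Perm.one_apply]
      rw [h5] at h4
      exact h4

omit [Fintype X] [Fintype D] in
theorem step_inl (E : X ⊕ X ≃ D) (p : Equiv.Perm X × Equiv.Perm X) (x : X) :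
    (sg E p * al E) (E (Sum.inl x)) = E (Sum.inr (p.1⁻¹ (p.2 x))) := by
  rw [Equiv.Perm.mul_apply, al_inl, sg_inr]

omit [Fintype X] [Fintype D] in
theorem step_inr (E : X ⊕ X ≃ D) (p : Equiv.Perm X × Equiv.Perm X) (x : X) :
    (sg E p * al E) (E (Sum.inr x)) = E (Sum.inl (p.1 x)) := by
  rw [Equiv.Perm.mul_apply, al_inr, sg_inl]

omit [Fintype X] [Fintype D] in
/-- All faces have degree four iff `b` is a fixed point free involution. -/
theorem mp_four (E : X ⊕ X ≃ D) (p : Equiv.Perm X × Equiv.Perm X) :
    (∀ d, Function.minimalPeriod (sg E p * al E) d = 4) ↔ Inv2 p.2 := by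
  have e2l : ∀ x, (sg E p * al E)^[2] (E (Sum.inl x)) = E (Sum.inl (p.2 x)) := by
    intro x
    rw [Function.iterate_succ_apply, Function.iterate_succ_apply, Function.iterate_zero_apply,
      step_inl, step_inr, ← Equiv.Perm.mul_apply, mul_inv_cancel, Equiv.Perm.one_apply]
  have e2r : ∀ x, (sg E p * al E)^[2] (E (Sum.inr x)) = E (Sum.inr (p.1⁻¹ (p.2 (p.1 x)))) := by
    intro x
    rw [Function.iterate_succ_apply, Function.iterate_succ_apply, Function.iterate_zero_apply,
      step_inr, step_inl]
  have e4l : ∀ x, (sg E p * al E)^[4] (E (Sum.inl x)) = E (Sum.inl (p.2 (p.2 x))) := by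
    intro x
    rw [show (4 : ℕ) = 2 + 2 from rfl, Function.iterate_add_apply, e2l, e2l]
  have e4r : ∀ x, (sg E p * al E)^[4] (E (Sum.inr x)) =
      E (Sum.inr (p.1⁻¹ (p.2 (p.2 (p.1 x))))) := by
    intro x
    rw [show (4 : ℕ) = 2 + 2 from rfl, Function.iterate_add_apply, e2r, e2r]
    have : p.1 (p.1⁻¹ (p.2 (p.1 x))) = p.2 (p.1 x) := by
      rw [← Equiv.Perm.mul_apply, mul_inv_cancel, Equiv.Perm.one_apply]
    rw [this]
  constructor
  · intro h x
    have h1 := h (E (Sum.inl x))
    have h2 : Function.IsPeriodicPt (sg E p * al E) 4 (E (Sum.inl x)) := by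
      have := Function.isPeriodicPt_minimalPeriod (sg E p * al E) (E (Sum.inl x))
      rwa [h1] at this
    have h3 : (sg E p * al E)^[4] (E (Sum.inl x)) = E (Sum.inl x) := h2
    rw [e4l] at h3
    refine ⟨by simpa using E.injective h3, ?_⟩
    intro h4
    have h5 : Function.IsPeriodicPt (sg E p * al E) 2 (E (Sum.inl x)) := by
      change (sg E p * al E)^[2] (E (Sum.inl x)) = E (Sum.inl x)
      rw [e2l, h4]
    have h6 := h5.minimalPeriod_dvd
    rw [h1] at h6
    omega
  · intro h d
    obtain ⟨x, rfl⟩ := E.surjective d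
    have : Fact (Nat.Prime 2) := ⟨Nat.prime_two⟩
    rcases x with x | x
    · refine Function.minimalPeriod_eq_prime_pow (p := 2) (k := 1) ?_ ?_
      · intro h1
        have h2 : (sg E p * al E)^[2] (E (Sum.inl x)) = E (Sum.inl x) := h1
        rw [e2l] at h2
        exact (h x).2 (by simpa using E.injective h2)
      · change (sg E p * al E)^[4] (E (Sum.inl x)) = E (Sum.inl x)
        rw [e4l, (h x).1]
    · refine Function.minimalPeriod_eq_prime_pow (p := 2) (k := 1) ?_ ?_
      · intro h1
        have h2 : (sg E p * al E)^[2] (E (Sum.inr x)) = E (Sum.inr x) := h1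
        rw [e2r] at h2
        have h3 : p.1⁻¹ (p.2 (p.1 x)) = x := by simpa using E.injective h2
        apply (h (p.1 x)).2
        rw [Equiv.Perm.inv_eq_iff_eq] at h3
        exact h3
      · change (sg E p * al E)^[4] (E (Sum.inr x)) = E (Sum.inr x)
        rw [e4r, (h (p.1 x)).1]
        have : p.1⁻¹ (p.1 x) = x := by
          rw [← Equiv.Perm.mul_apply, inv_mul_cancel, Equiv.Perm.one_apply]
        rw [this]

end General

/-- Labelled version of the frozen set. -/
def BB (n k : ℕ) : Set ((Equiv.Perm (Fin (4 * n)) × Equiv.Perm (Fin (4 * n))) ×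
    (Fin (2 * n) → Fin (4 * n))) :=
  {t | t.1 ∈ Frz n k ∧ Function.Injective t.2 ∧ (∀ x, t.1.1 (t.2 x) ∈ Set.range t.2) ∧
    ∀ x, t.1.2 (t.2 x) ∉ Set.range t.2}

theorem sg_mem_frz (n k : ℕ) (E : Fin (2 * n) ⊕ Fin (2 * n) ≃ Fin (4 * n))
    (p : Equiv.Perm (Fin (2 * n)) × Equiv.Perm (Fin (2 * n))) :
    (sg E p, al E) ∈ Frz n k ↔ p ∈ TT n k := by
  have hc : ∃ c : Fin (4 * n) → Bool, ∀ d, c (sg E p d) = c d ∧ c (al E d) ≠ c d := by
    refine ⟨fun d => (E.symm d).isRight, ?_⟩
    intro d
    obtain ⟨x, rfl⟩ := E.surjective d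
    rcases x with x | x
    · rw [sg_inl, al_inl]
      simp
    · rw [sg_inr, al_inr]
      simp
  constructor
  · rintro ⟨_, h2, h3, _, h5⟩
    have h6 := (mp_four E p).mp h3
    refine ⟨h6, (trans_sg E p).mp h2, ?_⟩
    dsimp only at h5
    rw [sum_recip, orb_sg E p h6] at h5
    exact_mod_cast h5
  · rintro ⟨h1, h2, h3⟩
    refine ⟨al_inv2 E, (trans_sg E p).mpr h2, (mp_four E p).mpr h1, hc, ?_⟩
    dsimp only
    rw [sum_recip, orb_sg E p h1, h3]

theorem sg_mem_BB (n k : ℕ) (E : Fin (2 * n) ⊕ Fin (2 * n) ≃ Fin (4 * n))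
    (p : Equiv.Perm (Fin (2 * n)) × Equiv.Perm (Fin (2 * n))) (hp : p ∈ TT n k) :
    ((sg E p, al E), fun x => E (Sum.inl x)) ∈ BB n k := by
  refine ⟨(sg_mem_frz n k E p).mpr hp, ?_, ?_, ?_⟩
  · intro x y h
    simpa using E.injective h
  · intro x
    dsimp only
    rw [sg_inl]
    exact ⟨_, rfl⟩
  · rintro x ⟨y, hy⟩
    dsimp only at hy
    rw [al_inl] at hy
    simpa using E.injective hy

theorem BB_card (n k : ℕ) : (TT n k).ncard * (4 * n).factorial = Nat.card (BB n k) := by
  have h1 : Nat.card (Fin (2 * n) ⊕ Fin (2 * n) ≃ Fin (4 * n)) = (4 * n).factorial := by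
    rw [Nat.card_eq_fintype_card]
    have h2 : Fintype.card (Fin (2 * n) ⊕ Fin (2 * n)) = 4 * n := by
      rw [Fintype.card_sum, Fintype.card_fin]; omega
    rw [Fintype.card_equiv (Fintype.equivFinOfCardEq h2), h2]
  rw [← h1, ← Nat.card_coe_set_eq, ← Nat.card_prod]
  refine Nat.card_eq_of_bijective (fun t : TT n k × (Fin (2 * n) ⊕ Fin (2 * n) ≃ Fin (4 * n)) =>
    (⟨((sg t.2 t.1.1, al t.2), fun x => t.2 (Sum.inl x)), sg_mem_BB n k t.2 t.1.1 t.1.2⟩ :
      BB n k)) ⟨?_, ?_⟩
  · rintro ⟨⟨p, hp⟩, E⟩ ⟨⟨p', hp'⟩, E'⟩ h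
    simp only [Subtype.mk.injEq, Prod.mk.injEq] at h
    obtain ⟨⟨h1, h2⟩, h3⟩ := h
    have h4 : ∀ x, E (Sum.inl x) = E' (Sum.inl x) := fun x => congrFun h3 x
    have h5 : ∀ x, E (Sum.inr x) = E' (Sum.inr x) := by
      intro x
      rw [← al_inl E, ← al_inl E', h2, h4]
    have h6 : E = E' := by
      ext x
      rcases x with x | x
      · rw [h4]
      · rw [h5]
    subst h6
    have h7 : p.1 = p'.1 := by
      ext x
      have := congrArg (fun f => f (E (Sum.inl x))) h1
      simp only [sg_inl] at this
      have := E.injective this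
      simp only [Sum.inl.injEq] at this
      rw [this]
    have h8 : p.2 = p'.2 := by
      ext x
      have := congrArg (fun f => f (E (Sum.inr x))) h1
      simp only [sg_inr] at this
      have := E.injective this
      simp only [Sum.inr.injEq] at this
      rw [h7] at this
      rw [(p'.1⁻¹).injective this]
    have h9 : p = p' := Prod.ext h7 h8
    subst h9
    rfl
  · rintro ⟨⟨⟨σ, α⟩, f⟩, hF, hf, hσ, hα⟩
    dsimp only at hσ hα hf hF
    -- the labelling
    have hEinj : Function.Injective (Sum.elim f (fun x => α (f x))) := by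
      rintro (x | x) (y | y) h
      · simp only [Sum.elim_inl] at h
        rw [hf h]
      · simp only [Sum.elim_inl, Sum.elim_inr] at h
        exact absurd ⟨x, h⟩ (hα y)
      · simp only [Sum.elim_inl, Sum.elim_inr] at h
        exact absurd ⟨y, h.symm⟩ (hα x)
      · simp only [Sum.elim_inr] at h
        rw [hf (α.injective h)]
    have hEbij : Function.Bijective (Sum.elim f (fun x => α (f x))) := by
      rw [Fintype.bijective_iff_injective_and_card]
      refine ⟨hEinj, ?_⟩
      rw [Fintype.card_sum, Fintype.card_fin, Fintype.card_fin]; omega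
    let E : Fin (2 * n) ⊕ Fin (2 * n) ≃ Fin (4 * n) := Equiv.ofBijective _ hEbij
    have hEl : ∀ x, E (Sum.inl x) = f x := fun x => rfl
    have hEr : ∀ x, E (Sum.inr x) = α (f x) := fun x => rfl
    have hτ : (E.symm.permCongr σ) ∈
        (Equiv.Perm.sumCongrHom (Fin (2 * n)) (Fin (2 * n))).range := by
      apply Equiv.Perm.mem_sumCongrHom_range_of_perm_mapsTo_inl
      rintro _ ⟨x, rfl⟩
      obtain ⟨y, hy⟩ := hσ x
      refine ⟨y, ?_⟩
      rw [Equiv.permCongr_apply, Equiv.symm_symm, hEl, ← hy, ← hEl, Equiv.symm_apply_apply]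
    obtain ⟨⟨π, π'⟩, hππ⟩ := hτ
    have hσ' : σ = sg E (π, π * π') := by
      have h1 : E.permCongr (E.symm.permCongr σ) = σ := by
        ext x
        simp
      rw [← h1, ← hππ, sg]
      dsimp only
      rw [inv_mul_cancel_left]
      rfl
    have hα' : α = al E := by
      ext d
      obtain ⟨x, rfl⟩ := E.surjective d
      rcases x with x | x
      · rw [al_inl, hEl, hEr]
      · rw [al_inr, hEl, hEr, (hF.1 (f x)).1]
    refine ⟨(⟨(π, π * π'), (sg_mem_frz n k E _).mp (by rw [← hσ', ← hα']; exact hF)⟩, E), ?_⟩
    apply Subtype.ext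
    dsimp only
    rw [← hσ', ← hα']
    rfl

/-- Labellings of one colour class. -/
def FF (n : ℕ) (p : Equiv.Perm (Fin (4 * n)) × Equiv.Perm (Fin (4 * n))) :
    Set (Fin (2 * n) → Fin (4 * n)) :=
  {f | Function.Injective f ∧ (∀ x, p.1 (f x) ∈ Set.range f) ∧ ∀ x, p.2 (f x) ∉ Set.range f}

/-- Number of injections with a given range. -/
theorem card_inj_range {X D : Type} [Fintype X] [Fintype D] (W : Set D)
    (hW : Nat.card W = Fintype.card X) :
    {f : X → D | Function.Injective f ∧ Set.range f = W}.ncard = (Fintype.card X).factorial := by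
  classical
  have e : {f : X → D | Function.Injective f ∧ Set.range f = W} ≃ (X ≃ W) :=
    { toFun := fun f => Equiv.ofBijective
        (fun x => (⟨f.1 x, (Set.ext_iff.mp f.2.2 (f.1 x)).mp ⟨x, rfl⟩⟩ : W))
        ⟨fun x y h => f.2.1 (by simpa using h), fun w => by
          have h1 : w.1 ∈ Set.range f.1 := (Set.ext_iff.mp f.2.2 w.1).mpr w.2
          obtain ⟨x, hx⟩ := h1
          exact ⟨x, Subtype.ext hx⟩⟩
      invFun := fun e => ⟨fun x => (e x).1, fun x y h => e.injective (Subtype.ext h), by
        ext d
        constructor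
        · rintro ⟨x, rfl⟩
          exact (e x).2
        · intro hd
          exact ⟨e.symm ⟨d, hd⟩, by simp⟩⟩
      left_inv := fun f => by
        ext x
        rfl
      right_inv := fun e => by
        ext x
        rfl }
  rw [← Nat.card_coe_set_eq, Nat.card_congr e]
  have : Fintype W := Fintype.ofFinite W
  rw [Nat.card_eq_fintype_card]
  rw [Nat.card_eq_fintype_card] at hW
  exact Fintype.card_equiv (Fintype.equivOfCardEq hW.symm)

theorem FF_card (n k : ℕ) (hn : 1 ≤ n) (p : Equiv.Perm (Fin (4 * n)) × Equiv.Perm (Fin (4 * n)))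
    (hp : p ∈ Frz n k) : (FF n p).ncard = 2 * (2 * n).factorial := by
  classical
  obtain ⟨h1, h2, _, ⟨c, hc⟩, _⟩ := hp
  have h2' := (trans_iff p).mp h2
  -- cardinality of the colour classes
  have hW : ∀ i, (univ.filter fun d => c d = i).card = 2 * n := by
    have h3 : (univ.filter fun d => c d = true).card = (univ.filter fun d => c d = false).card := by
      refine Finset.card_bij (fun d _ => p.2 d) ?_ ?_ ?_
      · intro d hd
        simp only [Finset.mem_filter, Finset.mem_univ, true_and] at hd ⊢
        have := (hc d).2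
        rw [hd] at this
        simpa using this
      · intro d _ d' _ h
        exact p.2.injective h
      · intro d hd
        simp only [Finset.mem_filter, Finset.mem_univ, true_and] at hd
        refine ⟨p.2 d, ?_, (h1 d).1⟩
        simp only [Finset.mem_filter, Finset.mem_univ, true_and]
        have := (hc d).2
        rw [hd] at this
        simpa using this
    have h4 : (univ.filter fun d => c d = true).card + (univ.filter fun d => c d = false).card =
        4 * n := by
      have := Finset.card_filter_add_card_filter_not (s := (univ : Finset (Fin (4 * n))))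
        (fun d => c d = true)
      rw [Finset.card_univ, Fintype.card_fin] at this
      simpa using this
    intro i
    cases i <;> omega
  have hWn : ∀ i, Nat.card {d | c d = i} = Fintype.card (Fin (2 * n)) := by
    intro i
    rw [Fintype.card_fin, ← hW i, Nat.card_eq_fintype_card, Fintype.card_subtype]
    rfl
  -- the two kinds of labellings
  have hFF : FF n p = {f | Function.Injective f ∧ Set.range f = {d | c d = true}} ∪
      {f | Function.Injective f ∧ Set.range f = {d | c d = false}} := by
    ext f
    change _ ↔ (_ ∨ _)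
    constructor
    · rintro ⟨hf, hσ, hα⟩
      -- the image and its complement
      have hR : ∀ d, (p.2 d ∈ Set.range f ↔ d ∉ Set.range f) := by
        have h5 : (univ.image f).card = 2 * n := by
          rw [Finset.card_image_of_injective _ hf, Finset.card_univ, Fintype.card_fin]
        have h6 : (univ.image f).image p.2 = (univ.image f)ᶜ := by
          apply Finset.eq_of_subset_of_card_le
          · intro d hd
            rw [Finset.mem_image] at hd
            obtain ⟨e, he, rfl⟩ := hd
            rw [Finset.mem_image] at he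
            obtain ⟨x, _, rfl⟩ := he
            rw [Finset.mem_compl]
            intro h7
            apply hα x
            simpa using h7
          · rw [Finset.card_image_of_injective _ p.2.injective, Finset.card_compl, h5,
              Fintype.card_fin]
            omega
        intro d
        constructor
        · rintro h7 ⟨x, rfl⟩
          exact hα x h7
        · intro h7
          have h8 : d ∈ (univ.image f)ᶜ := by
            rw [Finset.mem_compl]
            simpa using h7
          rw [← h6, Finset.mem_image] at h8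
          obtain ⟨e, he, rfl⟩ := h8
          rw [(h1 e).1]
          simpa using he
      have hS : ∀ d, d ∈ Set.range f → p.1 d ∈ Set.range f := by
        rintro _ ⟨x, rfl⟩
        exact hσ x
      have hS' : ∀ d, (p.1 d ∈ Set.range f ↔ d ∈ Set.range f) := by
        intro d
        refine ⟨fun h => ?_, hS d⟩
        have := Equiv.Perm.perm_symm_on_of_perm_on_finite (f := p.1)
          (p := fun d => d ∈ Set.range f) hS h
        simpa using this
      by_cases hne : ∃ d, (d ∈ Set.range f ↔ c d = true)
      · left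
        refine ⟨hf, ?_⟩
        have h9 := h2' {d | (d ∈ Set.range f ↔ c d = true)} hne ?_
        · ext d
          exact h9 d
        · intro d hd
          have hd' : (d ∈ Set.range f ↔ c d = true) := hd
          constructor
          · change (p.1 d ∈ Set.range f ↔ c (p.1 d) = true)
            rw [hS', (hc d).1, hd']
          · change (p.2 d ∈ Set.range f ↔ c (p.2 d) = true)
            rw [hR, hd']
            have := (hc d).2
            cases h10 : c d <;> cases h11 : c (p.2 d) <;> simp_all
      · right
        refine ⟨hf, ?_⟩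
        push Not at hne
        ext d
        have h9 : ¬ (d ∈ Set.range f ↔ c d = true) := by
          intro h10
          rcases hne d with h11 | h11
          · exact h11.2 (h10.mp h11.1)
          · exact h11.1 (h10.mpr h11.2)
        change _ ↔ c d = false
        cases h10 : c d <;> simp_all
    · have key : ∀ i, (Function.Injective f ∧ Set.range f = {d | c d = i}) →
          Function.Injective f ∧ (∀ x, p.1 (f x) ∈ Set.range f) ∧
            ∀ x, p.2 (f x) ∉ Set.range f := by
        rintro i ⟨hf, hr⟩
        have h5 : ∀ x, c (f x) = i := by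
          intro x
          have : f x ∈ Set.range f := ⟨x, rfl⟩
          rw [hr] at this
          exact this
        refine ⟨hf, ?_, ?_⟩
        · intro x
          rw [hr]
          change c (p.1 (f x)) = i
          rw [(hc _).1, h5]
        · intro x
          rw [hr]
          change ¬ (c (p.2 (f x)) = i)
          intro h6
          apply (hc (f x)).2
          rw [h6, h5]
      rintro (h | h)
      · exact key _ h
      · exact key _ h
  rw [hFF, Set.ncard_union_eq ?_ (Set.toFinite _) (Set.toFinite _), card_inj_range _ (hWn true),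
    card_inj_range _ (hWn false), Fintype.card_fin, ← two_mul]
  rw [Set.disjoint_left]
  rintro f ⟨_, h3⟩ ⟨_, h4⟩
  rw [h3] at h4
  have h5 : (univ.filter fun d => c d = true) = (univ.filter fun d => c d = false) := by
    ext d
    simp only [Finset.mem_filter, Finset.mem_univ, true_and]
    exact Set.ext_iff.mp h4 d
  have h6 : (univ.filter fun d => c d = true) = ∅ := by
    ext d
    constructor
    · intro hd
      have hd' := hd
      rw [h5] at hd'
      simp only [Finset.mem_filter, Finset.mem_univ, true_and] at hd hd'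
      rw [hd] at hd'
      simp at hd'
    · intro hd
      simp at hd
  have h7 := hW true
  rw [h6, Finset.card_empty] at h7
  omega

/-- Module Aa. -/
theorem frz_card (n k : ℕ) (hn : 1 ≤ n) :
    (Frz n k).ncard * (2 * n - 1).factorial = (TT n k).ncard * (4 * n - 1).factorial := by
  classical
  have h1 := BB_card n k
  have e : BB n k ≃ Σ p : Frz n k, FF n p.1 :=
    { toFun := fun t => ⟨⟨t.1.1, t.2.1⟩, ⟨t.1.2, t.2.2⟩⟩
      invFun := fun t => ⟨(t.1.1, t.2.1), t.1.2, t.2.2⟩
      left_inv := fun t => rfl
      right_inv := fun t => rfl }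
  have h2 : Nat.card (BB n k) = (Frz n k).ncard * (2 * (2 * n).factorial) := by
    rw [Nat.card_congr e, Nat.card_sigma]
    have h3 : ∀ p : Frz n k, Nat.card (FF n p.1) = 2 * (2 * n).factorial := by
      intro p
      rw [Nat.card_coe_set_eq]
      exact FF_card n k hn p.1 p.2
    rw [Finset.sum_congr rfl (fun p _ => h3 p), Finset.sum_const, Finset.card_univ,
      ← Nat.card_eq_fintype_card, Nat.card_coe_set_eq, smul_eq_mul]
  rw [h2] at h1
  have h3 : (4 * n).factorial = 4 * n * (4 * n - 1).factorial :=
    (Nat.mul_factorial_pred (by omega)).symm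
  have h4 : (2 * n).factorial = 2 * n * (2 * n - 1).factorial :=
    (Nat.mul_factorial_pred (by omega)).symm
  rw [h3, h4] at h1
  have h5 : 4 * n * ((Frz n k).ncard * (2 * n - 1).factorial) =
      4 * n * ((TT n k).ncard * (4 * n - 1).factorial) := by
    calc 4 * n * ((Frz n k).ncard * (2 * n - 1).factorial)
        = (Frz n k).ncard * (2 * (2 * n * (2 * n - 1).factorial)) := by ring
      _ = (TT n k).ncard * (4 * n * (4 * n - 1).factorial) := h1.symm
      _ = 4 * n * ((TT n k).ncard * (4 * n - 1).factorial) := by ring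
  exact Nat.eq_of_mul_eq_mul_left (by omega) h5

end Pool.Agent.H48.Quad
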