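import Pool.Agent.H48.Quad.Basic

set_option autoImplicit false

/-!
# Module Ab: connected components
-/

namespace Pool.Agent.H48.Quad

open Finset Pool.Agent.H63.Quad

/-- The weight of a pair. -/
noncomputable def wt (N : ℕ) {X : Type} [Fintype X] (p : Equiv.Perm X × Equiv.Perm X) : ℕ :=
  fixN N p.1 * fixN N (p.1 * p.2)

theorem wt_eq (N : ℕ) {X : Type} [Fintype X] (p : Equiv.Perm X × Equiv.Perm X) :
    wt N p = N ^ (orb p.1 + orb (p.1 * p.2)) := by
  rw [wt, fixN_eq, fixN_eq, pow_add]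

open Classical in
/-- Weighted number of connected pairs on `X`. -/
noncomputable def KX (N : ℕ) (X : Type) [Fintype X] [DecidableEq X] : ℕ :=
  ∑ p : Equiv.Perm X × Equiv.Perm X, if Inv2 p.2 ∧ Trans p then wt N p else 0

open Classical in
/-- Weighted number of all pairs on `X`. -/
noncomputable def AX (N : ℕ) (X : Type) [Fintype X] [DecidableEq X] : ℕ :=
  ∑ p : Equiv.Perm X × Equiv.Perm X, if Inv2 p.2 then wt N p else 0

theorem KX_fin (N n : ℕ) : KX N (Fin (2 * n)) = KK N n := rfl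

theorem AX_fin (N n : ℕ) : AX N (Fin (2 * n)) = AA N n := rfl

theorem KK_eq (N n : ℕ) :
    KK N n = ∑ k ∈ range (4 * n + 1), (TT n k).ncard * N ^ k := by
  classical
  have h1 : ∀ k, (TT n k).ncard * N ^ k =
      ∑ p : Equiv.Perm (Fin (2 * n)) × Equiv.Perm (Fin (2 * n)),
        if p ∈ TT n k then N ^ k else 0 := by
    intro k
    rw [← Finset.sum_filter, Finset.sum_const, smul_eq_mul]
    congr 1
    rw [← Set.ncard_coe_finset]
    congr 1
    ext p
    simp
  simp only [h1]
  rw [Finset.sum_comm, KK]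
  refine Finset.sum_congr rfl fun p _ => ?_
  have hle : orb p.1 + orb (p.1 * p.2) < 4 * n + 1 := by
    have h2 := orb_le p.1
    have h3 := orb_le (p.1 * p.2)
    rw [Fintype.card_fin] at h2 h3
    omega
  by_cases hp : Inv2 p.2 ∧ Trans p
  · rw [if_pos hp]
    change wt N p = _
    rw [wt_eq, Finset.sum_eq_single (orb p.1 + orb (p.1 * p.2))]
    · rw [if_pos ⟨hp.1, hp.2, rfl⟩]
    · intro k _ hk
      rw [if_neg]
      rintro ⟨_, _, h⟩
      exact hk h.symm
    · intro h
      exact absurd (Finset.mem_range.mpr hle) h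
  · rw [if_neg hp]
    symm
    apply Finset.sum_eq_zero
    intro k _
    rw [if_neg]
    rintro ⟨h1, h2, _⟩
    exact hp ⟨h1, h2⟩

section Conj

variable {X Y : Type} [Fintype X] [Fintype Y]

omit [Fintype X] [Fintype Y] in
theorem inv2_conj_of (e : X ≃ Y) (b : Equiv.Perm X) (h : Inv2 b) : Inv2 (e.permCongr b) := by
  intro d
  have h1 := h (e.symm d)
  refine ⟨by simp [h1.1], ?_⟩
  intro h2
  apply h1.2
  rw [Equiv.permCongr_apply] at h2
  exact (e.symm_apply_eq.mpr h2.symm).symm

omit [Fintype X] [Fintype Y] in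
theorem inv2_conj (e : X ≃ Y) (b : Equiv.Perm X) : Inv2 (e.permCongr b) ↔ Inv2 b := by
  refine ⟨fun h => ?_, inv2_conj_of e b⟩
  have h1 := inv2_conj_of e.symm _ h
  have h2 : e.symm.permCongr (e.permCongr b) = b := by
    ext x
    simp
  rwa [h2] at h1

theorem trans_conj_of (e : X ≃ Y) (p : Equiv.Perm X × Equiv.Perm X) (h : Trans p) :
    Trans (e.permCongr p.1, e.permCongr p.2) := by
  rw [trans_iff] at h ⊢
  rintro S ⟨s, hs⟩ hS y
  have h1 := h (e ⁻¹' S) ⟨e.symm s, by simpa using hs⟩ ?_ (e.symm y)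
  · simpa using h1
  · intro x hx
    have h2 := hS (e x) hx
    simpa using h2

theorem trans_conj (e : X ≃ Y) (p : Equiv.Perm X × Equiv.Perm X) :
    Trans (e.permCongr p.1, e.permCongr p.2) ↔ Trans p := by
  refine ⟨fun h => ?_, trans_conj_of e p⟩
  have h1 := trans_conj_of e.symm _ h
  have h2 : ∀ b : Equiv.Perm X, e.symm.permCongr (e.permCongr b) = b := by
    intro b
    ext x
    simp
  simpa only [h2] using h1

theorem wt_conj (N : ℕ) (e : X ≃ Y) (p : Equiv.Perm X × Equiv.Perm X) :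
    wt N (e.permCongr p.1, e.permCongr p.2) = wt N p := by
  rw [wt_eq, wt_eq]
  have h : e.permCongr p.1 * e.permCongr p.2 = e.permCongr (p.1 * p.2) := by
    ext x
    simp
  dsimp only
  rw [h, orb_conj, orb_conj]

variable [DecidableEq X] [DecidableEq Y]

theorem KX_congr (N : ℕ) (e : X ≃ Y) : KX N X = KX N Y := by
  classical
  rw [KX, KX]
  refine Fintype.sum_equiv (Equiv.prodCongr e.permCongr e.permCongr) _ _ ?_
  intro p
  change _ = if Inv2 (e.permCongr p.2) ∧ Trans (e.permCongr p.1, e.permCongr p.2) then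
    wt N (e.permCongr p.1, e.permCongr p.2) else 0
  rw [inv2_conj, trans_conj, wt_conj]

theorem AX_congr (N : ℕ) (e : X ≃ Y) : AX N X = AX N Y := by
  classical
  rw [AX, AX]
  refine Fintype.sum_equiv (Equiv.prodCongr e.permCongr e.permCongr) _ _ ?_
  intro p
  change _ = if Inv2 (e.permCongr p.2) then
    wt N (e.permCongr p.1, e.permCongr p.2) else 0
  rw [inv2_conj, wt_conj]

theorem KX_card (N j : ℕ) (h : Fintype.card X = 2 * j) : KX N X = KK N j := by
  rw [← KX_fin]
  exact KX_congr N (Fintype.equivFinOfCardEq h)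

theorem AX_card (N j : ℕ) (h : Fintype.card X = 2 * j) : AX N X = AA N j := by
  rw [← AX_fin]
  exact AX_congr N (Fintype.equivFinOfCardEq h)

omit [DecidableEq X] in
theorem inv2_even (b : Equiv.Perm X) (h : Inv2 b) : Even (Fintype.card X) := by
  classical
  have h1 : b.support = univ := by
    ext x
    simp [(h x).2]
  have h2 : b ^ 2 = 1 := by
    ext x
    simp [sq, (h x).1]
  have := Equiv.Perm.two_dvd_card_support h2
  rw [h1, Finset.card_univ] at this
  exact even_iff_two_dvd.mpr this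

theorem KX_odd (N : ℕ) (h : ¬ Even (Fintype.card X)) : KX N X = 0 := by
  classical
  rw [KX]
  apply Finset.sum_eq_zero
  intro p _
  rw [if_neg]
  rintro ⟨h1, _⟩
  exact h (inv2_even _ h1)

end Conj

section Glue

variable {X : Type} [Fintype X] [DecidableEq X] (S : Finset X)

/-- Gluing of pairs of permutations. -/
noncomputable def glue (t : (Equiv.Perm {x // x ∈ S} × Equiv.Perm {x // x ∈ S}) ×
    (Equiv.Perm {x // x ∉ S} × Equiv.Perm {x // x ∉ S})) : Equiv.Perm X × Equiv.Perm X :=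
  (Equiv.Perm.subtypeCongr t.1.1 t.2.1, Equiv.Perm.subtypeCongr t.1.2 t.2.2)

variable {S}

theorem inv2_glue (b₁ : Equiv.Perm {x // x ∈ S}) (b₂ : Equiv.Perm {x // x ∉ S}) :
    Inv2 (Equiv.Perm.subtypeCongr b₁ b₂) ↔ Inv2 b₁ ∧ Inv2 b₂ := by
  constructor
  · intro h
    constructor
    · intro d
      have h1 := h d.1
      rw [Equiv.Perm.subtypeCongr.left_apply_subtype,
        Equiv.Perm.subtypeCongr.left_apply_subtype] at h1
      exact ⟨Subtype.ext h1.1, fun h2 => h1.2 (by rw [h2])⟩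
    · intro d
      have h1 := h d.1
      rw [Equiv.Perm.subtypeCongr.right_apply_subtype,
        Equiv.Perm.subtypeCongr.right_apply_subtype] at h1
      exact ⟨Subtype.ext h1.1, fun h2 => h1.2 (by rw [h2])⟩
  · rintro ⟨h1, h2⟩ d
    by_cases hd : d ∈ S
    · rw [Equiv.Perm.subtypeCongr.left_apply _ _ hd,
        Equiv.Perm.subtypeCongr.left_apply_subtype]
      have h3 := h1 ⟨d, hd⟩
      exact ⟨by rw [h3.1], fun h4 => h3.2 (Subtype.ext h4)⟩
    · rw [Equiv.Perm.subtypeCongr.right_apply _ _ hd,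
        Equiv.Perm.subtypeCongr.right_apply_subtype]
      have h3 := h2 ⟨d, hd⟩
      exact ⟨by rw [h3.1], fun h4 => h3.2 (Subtype.ext h4)⟩

theorem mp_glue_left (b₁ : Equiv.Perm {x // x ∈ S}) (b₂ : Equiv.Perm {x // x ∉ S})
    (x : {x // x ∈ S}) :
    Function.minimalPeriod (Equiv.Perm.subtypeCongr b₁ b₂) x.1 = Function.minimalPeriod b₁ x := by
  rw [Function.minimalPeriod_eq_minimalPeriod_iff]
  intro n
  have h : ∀ n : ℕ, (Equiv.Perm.subtypeCongr b₁ b₂)^[n] x.1 = (b₁^[n] x).1 := by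
    intro n
    induction n with
    | zero => rfl
    | succ n ih => rw [Function.iterate_succ_apply', Function.iterate_succ_apply', ih,
        Equiv.Perm.subtypeCongr.left_apply_subtype]
  simp only [Function.IsPeriodicPt, Function.IsFixedPt, h, Subtype.ext_iff]

theorem mp_glue_right (b₁ : Equiv.Perm {x // x ∈ S}) (b₂ : Equiv.Perm {x // x ∉ S})
    (x : {x // x ∉ S}) :
    Function.minimalPeriod (Equiv.Perm.subtypeCongr b₁ b₂) x.1 = Function.minimalPeriod b₂ x := by
  rw [Function.minimalPeriod_eq_minimalPeriod_iff]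
  intro n
  have h : ∀ n : ℕ, (Equiv.Perm.subtypeCongr b₁ b₂)^[n] x.1 = (b₂^[n] x).1 := by
    intro n
    induction n with
    | zero => rfl
    | succ n ih => rw [Function.iterate_succ_apply', Function.iterate_succ_apply', ih,
        Equiv.Perm.subtypeCongr.right_apply_subtype]
  simp only [Function.IsPeriodicPt, Function.IsFixedPt, h, Subtype.ext_iff]

theorem orb_glue (b₁ : Equiv.Perm {x // x ∈ S}) (b₂ : Equiv.Perm {x // x ∉ S}) :
    orb (Equiv.Perm.subtypeCongr b₁ b₂) = orb b₁ + orb b₂ := by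
  have h := sum_recip (Equiv.Perm.subtypeCongr b₁ b₂)
  rw [← Equiv.sum_comp (Equiv.sumCompl (fun x => x ∈ S)), Fintype.sum_sum_type] at h
  simp only [Equiv.sumCompl_apply_inl, Equiv.sumCompl_apply_inr, mp_glue_left, mp_glue_right] at h
  rw [sum_recip, sum_recip] at h
  exact_mod_cast h.symm

theorem glue_mul (a₁ b₁ : Equiv.Perm {x // x ∈ S}) (a₂ b₂ : Equiv.Perm {x // x ∉ S}) :
    Equiv.Perm.subtypeCongr a₁ a₂ * Equiv.Perm.subtypeCongr b₁ b₂ =
      Equiv.Perm.subtypeCongr (a₁ * b₁) (a₂ * b₂) := by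
  ext x
  by_cases hx : x ∈ S
  · rw [Equiv.Perm.mul_apply, Equiv.Perm.subtypeCongr.left_apply _ _ hx,
      Equiv.Perm.subtypeCongr.left_apply_subtype, Equiv.Perm.subtypeCongr.left_apply _ _ hx]
    rfl
  · rw [Equiv.Perm.mul_apply, Equiv.Perm.subtypeCongr.right_apply _ _ hx,
      Equiv.Perm.subtypeCongr.right_apply_subtype, Equiv.Perm.subtypeCongr.right_apply _ _ hx]
    rfl

theorem wt_glue (N : ℕ) (t : (Equiv.Perm {x // x ∈ S} × Equiv.Perm {x // x ∈ S}) ×
    (Equiv.Perm {x // x ∉ S} × Equiv.Perm {x // x ∉ S})) :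
    wt N (glue S t) = wt N t.1 * wt N t.2 := by
  rw [wt_eq, wt_eq, wt_eq, ← pow_add]
  simp only [glue, glue_mul, orb_glue]
  congr 1
  ring

theorem glue_injective : Function.Injective (glue S) := by
  rintro ⟨⟨a₁, a₂⟩, ⟨a₃, a₄⟩⟩ ⟨⟨b₁, b₂⟩, ⟨b₃, b₄⟩⟩ h
  simp only [glue, Prod.mk.injEq] at h
  have h1 : ∀ (a b : Equiv.Perm {x // x ∈ S}) (a' b' : Equiv.Perm {x // x ∉ S}),
      Equiv.Perm.subtypeCongr a a' = Equiv.Perm.subtypeCongr b b' → a = b ∧ a' = b' := by
    intro a b a' b' hab
    constructor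
    · ext x
      have := congrArg (fun f => f x.1) hab
      simpa only [Equiv.Perm.subtypeCongr.left_apply_subtype] using this
    · ext x
      have := congrArg (fun f => f x.1) hab
      simpa only [Equiv.Perm.subtypeCongr.right_apply_subtype] using this
  obtain ⟨h2, h3⟩ := h1 _ _ _ _ h.1
  obtain ⟨h4, h5⟩ := h1 _ _ _ _ h.2
  rw [h2, h3, h4, h5]

theorem glue_surj (p : Equiv.Perm X × Equiv.Perm X) (h1 : ∀ x ∈ S, p.1 x ∈ S)
    (h2 : ∀ x ∈ S, p.2 x ∈ S) : ∃ t, glue S t = p := by
  have key : ∀ π : Equiv.Perm X, (∀ x ∈ S, π x ∈ S) →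
      ∃ a b, Equiv.Perm.subtypeCongr a b = (π : Equiv.Perm X) ∧
        (∀ x : {x // x ∈ S}, (a x).1 = π x.1) := by
    intro π hπ
    have h3 : ∀ x, π x ∈ S ↔ x ∈ S := by
      intro x
      refine ⟨fun h => ?_, hπ x⟩
      have := Equiv.Perm.perm_symm_on_of_perm_on_finset hπ h
      simpa using this
    refine ⟨π.subtypePerm (p := fun x => x ∈ S) (fun x => h3 x),
      π.subtypePerm (p := fun x => x ∉ S) (fun x => not_congr (h3 x)), ?_, ?_⟩
    · ext x
      by_cases hx : x ∈ S
      · rw [Equiv.Perm.subtypeCongr.left_apply _ _ hx]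
        rfl
      · rw [Equiv.Perm.subtypeCongr.right_apply _ _ hx]
        rfl
    · intro x
      rfl
  obtain ⟨a, b, hab, _⟩ := key p.1 h1
  obtain ⟨a', b', hab', _⟩ := key p.2 h2
  exact ⟨((a, a'), (b, b')), by rw [glue]; simp only [hab, hab']⟩

open Classical in
/-- The orbit of `x₀`. -/
noncomputable def orbSet (x₀ : X) (p : Equiv.Perm X × Equiv.Perm X) : Finset X :=
  univ.filter fun y => ∀ T : Set X, x₀ ∈ T → (∀ x ∈ T, p.1 x ∈ T ∧ p.2 x ∈ T) → y ∈ T

omit [DecidableEq X] in
theorem mem_orbSet (x₀ y : X) (p : Equiv.Perm X × Equiv.Perm X) : y ∈ orbSet x₀ p ↔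
    ∀ T : Set X, x₀ ∈ T → (∀ x ∈ T, p.1 x ∈ T ∧ p.2 x ∈ T) → y ∈ T := by
  simp [orbSet]

omit [DecidableEq X] in
theorem self_mem_orbSet (x₀ : X) (p : Equiv.Perm X × Equiv.Perm X) : x₀ ∈ orbSet x₀ p := by
  rw [mem_orbSet]
  exact fun T h _ => h

omit [DecidableEq X] in
theorem orbSet_inv (x₀ : X) (p : Equiv.Perm X × Equiv.Perm X) (x : X) (hx : x ∈ orbSet x₀ p) :
    p.1 x ∈ orbSet x₀ p ∧ p.2 x ∈ orbSet x₀ p := by
  rw [mem_orbSet] at hx
  rw [mem_orbSet, mem_orbSet]
  exact ⟨fun T h1 h2 => (h2 _ (hx T h1 h2)).1, fun T h1 h2 => (h2 _ (hx T h1 h2)).2⟩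

theorem orbSet_glue (x₀ : X) (hx₀ : x₀ ∈ S)
    (t : (Equiv.Perm {x // x ∈ S} × Equiv.Perm {x // x ∈ S}) ×
    (Equiv.Perm {x // x ∉ S} × Equiv.Perm {x // x ∉ S})) :
    orbSet x₀ (glue S t) = S ↔ Trans t.1 := by
  rw [trans_iff]
  constructor
  · intro h
    -- any invariant set containing `x₀` is everything
    have key : ∀ T : Set {x // x ∈ S}, (⟨x₀, hx₀⟩ : {x // x ∈ S}) ∈ T →
        (∀ x ∈ T, t.1.1 x ∈ T ∧ t.1.2 x ∈ T) → ∀ y, y ∈ T := by
      intro T h1 h2 y
      have h3 : y.1 ∈ orbSet x₀ (glue S t) := by rw [h]; exact y.2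
      rw [mem_orbSet] at h3
      have h4 := h3 (Subtype.val '' T) ⟨_, h1, rfl⟩ ?_
      · obtain ⟨z, hz, hzy⟩ := h4
        rwa [← Subtype.ext hzy]
      · rintro _ ⟨x, hx, rfl⟩
        simp only [glue]
        rw [Equiv.Perm.subtypeCongr.left_apply_subtype,
          Equiv.Perm.subtypeCongr.left_apply_subtype]
        exact ⟨⟨_, (h2 x hx).1, rfl⟩, ⟨_, (h2 x hx).2, rfl⟩⟩
    rintro T ⟨s, hs⟩ hT
    by_cases h5 : (⟨x₀, hx₀⟩ : {x // x ∈ S}) ∈ T
    · exact key T h5 hT
    · exfalso
      have h6 := key Tᶜ h5 (by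
        intro x hx
        constructor
        · intro h7
          apply hx
          have := Equiv.Perm.perm_symm_on_of_perm_on_finite (f := t.1.1)
            (p := fun x => x ∈ T) (fun x hx => (hT x hx).1) h7
          simpa using this
        · intro h7
          apply hx
          have := Equiv.Perm.perm_symm_on_of_perm_on_finite (f := t.1.2)
            (p := fun x => x ∈ T) (fun x hx => (hT x hx).2) h7
          simpa using this) s
      exact h6 hs
  · intro h
    ext y
    rw [mem_orbSet]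
    constructor
    · intro h1
      have := h1 (S : Set X) hx₀ ?_
      · exact this
      · intro x hx
        have hx' : x ∈ S := hx
        simp only [glue]
        rw [Equiv.Perm.subtypeCongr.left_apply _ _ hx',
          Equiv.Perm.subtypeCongr.left_apply _ _ hx']
        exact ⟨(t.1.1 _).2, (t.1.2 _).2⟩
    · intro hy T h1 h2
      have := h (Subtype.val ⁻¹' T) ⟨⟨x₀, hx₀⟩, h1⟩ ?_ ⟨y, hy⟩
      · exact this
      · intro x hx
        have h3 := h2 x.1 hx
        simp only [glue] at h3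
        rw [Equiv.Perm.subtypeCongr.left_apply_subtype,
          Equiv.Perm.subtypeCongr.left_apply_subtype] at h3
        exact h3

open Classical in
theorem sum_orbSet (N : ℕ) (x₀ : X) (hx₀ : x₀ ∈ S) :
    ∑ p : Equiv.Perm X × Equiv.Perm X with Inv2 p.2 ∧ orbSet x₀ p = S, wt N p =
      KX N {x // x ∈ S} * AX N {x // x ∉ S} := by
  rw [KX, AX, ← Finset.sum_filter, ← Finset.sum_filter, Finset.sum_mul_sum,
    ← Finset.sum_product']
  symm
  refine Finset.sum_bij (fun t _ => glue S t) ?_ ?_ ?_ ?_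
  · rintro ⟨p, q⟩ ht
    simp only [Finset.mem_product, Finset.mem_filter, Finset.mem_univ, true_and] at ht ⊢
    refine ⟨?_, (orbSet_glue x₀ hx₀ _).mpr ht.1.2⟩
    exact (inv2_glue _ _).mpr ⟨ht.1.1, ht.2⟩
  · intro t _ t' _ h
    exact glue_injective h
  · intro p hp
    simp only [Finset.mem_filter, Finset.mem_univ, true_and] at hp
    have h1 : ∀ x ∈ S, p.1 x ∈ S ∧ p.2 x ∈ S := by
      intro x hx
      have := orbSet_inv x₀ p x (by rw [hp.2]; exact hx)
      rwa [hp.2] at this
    obtain ⟨t, rfl⟩ := glue_surj p (fun x hx => (h1 x hx).1) (fun x hx => (h1 x hx).2)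
    refine ⟨t, ?_, rfl⟩
    simp only [Finset.mem_product, Finset.mem_filter, Finset.mem_univ, true_and]
    have h2 := (inv2_glue _ _).mp hp.1
    exact ⟨⟨h2.1, (orbSet_glue x₀ hx₀ _).mp hp.2⟩, h2.2⟩
  · rintro ⟨p, q⟩ _
    rw [wt_glue]

end Glue

open Classical in
/-- Decomposition of a pair by the orbit of a base point. -/
theorem AX_eq_sum (N : ℕ) {X : Type} [Fintype X] [DecidableEq X] (x₀ : X) :
    AX N X = ∑ S : Finset X with x₀ ∈ S, KX N {x // x ∈ S} * AX N {x // x ∉ S} := by
  rw [AX, ← Finset.sum_filter, ← Finset.sum_fiberwise _ (fun p => orbSet x₀ p),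
    Finset.sum_filter]
  refine Finset.sum_congr rfl fun S _ => ?_
  split_ifs with hS
  · rw [← sum_orbSet N x₀ hS, Finset.filter_filter]
  · apply Finset.sum_eq_zero
    intro p hp
    rw [Finset.mem_filter] at hp
    exfalso
    apply hS
    rw [← hp.2]
    exact self_mem_orbSet x₀ p

/-- The recurrence between all pairs and connected pairs. -/
theorem AA_rec (N n : ℕ) (hn : 1 ≤ n) :
    AA N n = ∑ j ∈ Icc 1 n, (2 * n - 1).choose (2 * j - 1) * KK N j * AA N (n - j) := by
  classical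
  have hpos : 0 < 2 * n := by omega
  let x₀ : Fin (2 * n) := ⟨0, hpos⟩
  -- the value only depends on the cardinality
  let F : ℕ → ℕ := fun m => if Even (m + 1) then KK N ((m + 1) / 2) * AA N (n - (m + 1) / 2) else 0
  have h1 : ∀ S : Finset (Fin (2 * n)), x₀ ∈ S →
      KX N {x // x ∈ S} * AX N {x // x ∉ S} = F ((S.erase x₀).card) := by
    intro S hS
    have hc : S.card = (S.erase x₀).card + 1 := by
      rw [Finset.card_erase_of_mem hS]
      have : 0 < S.card := Finset.card_pos.mpr ⟨x₀, hS⟩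
      omega
    have hle : S.card ≤ 2 * n := by
      have := Finset.card_le_univ S
      rwa [Fintype.card_fin] at this
    simp only [F]
    rw [← hc]
    split_ifs with he
    · obtain ⟨j, hj⟩ := he
      have h2 : Fintype.card {x // x ∈ S} = 2 * j := by
        rw [Fintype.card_coe]; omega
      have h3 : Fintype.card {x // x ∉ S} = 2 * (n - j) := by
        rw [Fintype.card_subtype_compl, Fintype.card_coe, Fintype.card_fin]; omega
      rw [KX_card N j h2, AX_card N (n - j) h3]
      have h4 : S.card / 2 = j := by omega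
      rw [h4]
    · rw [KX_odd, zero_mul]
      rw [Fintype.card_coe]
      exact he
  rw [← AX_fin, AX_eq_sum N x₀]
  have h5 : ∑ S : Finset (Fin (2 * n)) with x₀ ∈ S, KX N {x // x ∈ S} * AX N {x // x ∉ S} =
      ∑ T ∈ (univ.erase x₀).powerset, F T.card := by
    refine Finset.sum_bij (fun S _ => S.erase x₀) ?_ ?_ ?_ ?_
    · intro S _
      rw [Finset.mem_powerset]
      exact Finset.erase_subset_erase _ (Finset.subset_univ _)
    · intro S hS S' hS' h
      rw [Finset.mem_filter] at hS hS'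
      rw [← Finset.insert_erase hS.2, h, Finset.insert_erase hS'.2]
    · intro T hT
      rw [Finset.mem_powerset] at hT
      have h6 : x₀ ∉ T := fun h => by
        have := hT h
        simp at this
      refine ⟨insert x₀ T, ?_, ?_⟩
      · simp
      · exact Finset.erase_insert h6
    · intro S hS
      rw [Finset.mem_filter] at hS
      exact h1 S hS.2
  rw [h5, Finset.sum_powerset_apply_card, Finset.card_erase_of_mem (Finset.mem_univ _),
    Finset.card_univ, Fintype.card_fin]
  have h7 : 2 * n - 1 + 1 = 2 * n := by omega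
  rw [h7]
  simp only [smul_eq_mul]
  -- only odd `m = 2 j - 1` contribute
  symm
  refine Finset.sum_bij_ne_zero (fun j _ _ => 2 * j - 1) ?_ ?_ ?_ ?_
  · intro j hj _
    rw [Finset.mem_Icc] at hj
    rw [Finset.mem_range]
    omega
  · intro j hj _ j' hj' _ h
    rw [Finset.mem_Icc] at hj hj'
    omega
  · intro m hm hne
    rw [Finset.mem_range] at hm
    have he : Even (m + 1) := by
      by_contra hno
      apply hne
      simp only [F]
      rw [if_neg hno, mul_zero]
    obtain ⟨j, hj⟩ := he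
    refine ⟨j, ?_, ?_, ?_⟩
    · rw [Finset.mem_Icc]; omega
    · simp only [F] at hne
      rw [if_pos ⟨j, hj⟩] at hne
      have h8 : (m + 1) / 2 = j := by omega
      have h9 : 2 * j - 1 = m := by omega
      rw [h8] at hne
      rw [h9, mul_assoc]
      exact hne
    · omega
  · intro j hj _
    rw [Finset.mem_Icc] at hj
    simp only [F]
    have h8 : 2 * j - 1 + 1 = 2 * j := by omega
    rw [h8, if_pos (even_two_mul j)]
    have h9 : 2 * j / 2 = j := by omega
    rw [h9, mul_assoc]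

end Pool.Agent.H48.Quad
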