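import Mathlib

set_option autoImplicit false

/-!
# Part B, preliminaries: the planar numbers and the normalised recurrence
-/

namespace Pool.Agent.H48.Quad

open Finset

/-- `e m = Cat_{m+1} / 4^m`. -/
noncomputable def ee (m : ℕ) : ℝ := (catalan (m + 1) : ℝ) / 4 ^ m

theorem ee_zero : ee 0 = 1 := by simp [ee, catalan_one]

theorem ee_succ (m : ℕ) : ee (m + 1) = ee m * ((2 * m + 3) / (2 * m + 6)) := by
  have h1 := succ_mul_catalan_eq_centralBinom (m + 2)
  have h2 := succ_mul_catalan_eq_centralBinom (m + 1)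
  have h3 := Nat.succ_mul_centralBinom_succ (m + 1)
  have h1' : ((m : ℝ) + 3) * (catalan (m + 2) : ℝ) = (Nat.centralBinom (m + 2) : ℝ) := by
    rw [← h1]; push_cast; ring
  have h2' : ((m : ℝ) + 2) * (catalan (m + 1) : ℝ) = (Nat.centralBinom (m + 1) : ℝ) := by
    rw [← h2]; push_cast; ring
  have h3' : ((m : ℝ) + 2) * (Nat.centralBinom (m + 2) : ℝ) =
      2 * (2 * m + 3) * (Nat.centralBinom (m + 1) : ℝ) := by
    have : ((m + 1 + 1 : ℕ) : ℝ) * (Nat.centralBinom (m + 1 + 1) : ℝ) =
      ((2 * (2 * (m + 1) + 1) * (m + 1).centralBinom : ℕ) : ℝ) := by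
      rw [← h3]; push_cast; ring
    push_cast at this
    rw [show m + 1 + 1 = m + 2 from rfl] at this
    linear_combination this
  rw [← h1', ← h2'] at h3'
  have h4 : ((m : ℝ) + 2) ≠ 0 := by positivity
  have h5 : ((m : ℝ) + 3) * (catalan (m + 2) : ℝ) = 2 * (2 * m + 3) * (catalan (m + 1) : ℝ) := by
    apply mul_left_cancel₀ h4
    linear_combination h3'
  rw [ee, ee, show m + 1 + 1 = m + 2 from rfl]
  rw [pow_succ, div_mul_div_comm, div_eq_div_iff (by positivity) (by positivity)]
  linear_combination (2 * 4 ^ m) * h5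

theorem ee_pos (m : ℕ) : 0 < ee m := by
  induction m with
  | zero => rw [ee_zero]; norm_num
  | succ m ih => rw [ee_succ]; positivity

theorem ee_le_one (m : ℕ) : ee m ≤ 1 := by
  induction m with
  | zero => rw [ee_zero]
  | succ m ih =>
    rw [ee_succ]
    have h1 : (2 * (m : ℝ) + 3) / (2 * m + 6) ≤ 1 := by
      rw [div_le_one (by positivity)]; linarith
    calc ee m * ((2 * m + 3) / (2 * m + 6)) ≤ 1 * 1 :=
          mul_le_mul ih h1 (by positivity) (by norm_num)
      _ = 1 := by norm_num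

/-- Partial sums. -/
theorem sum_ee (M : ℕ) : ∑ m ∈ range M, ee m = 4 - 2 * (M + 2) * ee M := by
  induction M with
  | zero => simp [ee_zero]; norm_num
  | succ M ih =>
    rw [Finset.sum_range_succ, ih, ee_succ]
    have h : (2 * (M : ℝ) + 6) ≠ 0 := by positivity
    push_cast
    field_simp
    ring

theorem vv_sq (M : ℕ) : ((M + 2) * ee M) ^ 2 * (2 * M + 3) ≤ 12 := by
  induction M with
  | zero => simp [ee_zero]; norm_num
  | succ M ih =>
    refine le_trans ?_ ih
    rw [ee_succ]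
    have h : (2 * (M : ℝ) + 6) ≠ 0 := by positivity
    have h1 : (((M + 1 : ℕ) : ℝ) + 2) * (ee M * ((2 * M + 3) / (2 * M + 6))) =
        ee M * (2 * M + 3) / 2 := by
      push_cast
      field_simp
      ring
    rw [h1]
    have h2 := ee_pos M
    push_cast
    have h3 : ((M : ℝ) + 2) ^ 2 * (2 * M + 3) - (2 * M + 3) ^ 2 * (2 * (M + 1) + 3) / 4 ≥ 0 := by
      have : (0 : ℝ) ≤ M := Nat.cast_nonneg M
      nlinarith [this]
    nlinarith [mul_nonneg (sq_nonneg (ee M)) h3.le, sq_nonneg (ee M)]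

theorem vv_tendsto : Filter.Tendsto (fun M : ℕ => ((M : ℝ) + 2) * ee M) Filter.atTop (nhds 0) := by
  have h1 : ∀ M : ℕ, ((M : ℝ) + 2) * ee M ≤ Real.sqrt (12 / (2 * M + 3)) := by
    intro M
    apply Real.le_sqrt_of_sq_le
    rw [le_div_iff₀ (by positivity)]
    exact vv_sq M
  have h2 : Filter.Tendsto (fun M : ℕ => Real.sqrt (12 / (2 * (M : ℝ) + 3))) Filter.atTop
      (nhds 0) := by
    have h3 : Filter.Tendsto (fun M : ℕ => 12 / (2 * (M : ℝ) + 3)) Filter.atTop (nhds 0) := by
      apply Filter.Tendsto.div_atTop tendsto_const_nhds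
      apply Filter.tendsto_atTop_add_const_right
      exact Filter.Tendsto.const_mul_atTop (by norm_num) tendsto_natCast_atTop_atTop
    have h4 := (Real.continuous_sqrt.tendsto 0).comp h3
    rw [Real.sqrt_zero] at h4
    exact h4
  refine tendsto_of_tendsto_of_tendsto_of_le_of_le tendsto_const_nhds h2 ?_ h1
  intro M
  have := ee_pos M
  positivity

theorem hasSum_ee : HasSum ee 4 := by
  rw [hasSum_iff_tendsto_nat_of_nonneg (fun m => (ee_pos m).le)]
  have h1 : Filter.Tendsto (fun M : ℕ => 4 - 2 * (((M : ℝ) + 2) * ee M)) Filter.atTop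
      (nhds (4 - 2 * 0)) := (vv_tendsto.const_mul 2).const_sub 4
  simp only [mul_zero, sub_zero] at h1
  refine h1.congr ?_
  intro M
  rw [sum_ee]
  ring

theorem summable_ee : Summable ee := hasSum_ee.summable

/-- The convolution identity. -/
theorem conv_ee (m : ℕ) :
    ∑ p ∈ antidiagonal m, ee p.1 * ee p.2 = 16 * ee (m + 2) - 8 * ee (m + 1) := by
  have h1 : catalan (m + 3) = ∑ p ∈ antidiagonal (m + 2), catalan p.1 * catalan p.2 :=
    catalan_succ' (m + 2)
  rw [Finset.Nat.antidiagonal_succ_succ', Finset.sum_cons, Finset.sum_cons, Finset.sum_map] at h1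
  simp only [catalan_zero, one_mul, mul_one, Function.Embedding.prodMap, Function.Embedding.coeFn_mk,
    Prod.map] at h1
  have h2 : (catalan (m + 3) : ℝ) = 2 * catalan (m + 2) +
      ∑ p ∈ antidiagonal m, (catalan (p.1 + 1) : ℝ) * catalan (p.2 + 1) := by
    rw [h1]
    push_cast
    ring
  have h3 : ∑ p ∈ antidiagonal m, ee p.1 * ee p.2 =
      (∑ p ∈ antidiagonal m, (catalan (p.1 + 1) : ℝ) * catalan (p.2 + 1)) / 4 ^ m := by
    rw [Finset.sum_div]
    refine Finset.sum_congr rfl fun p hp => ?_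
    rw [Finset.HasAntidiagonal.mem_antidiagonal] at hp
    rw [ee, ee, ← hp, pow_add]
    field_simp
  rw [h3, ee, ee, show m + 2 + 1 = m + 3 from rfl, show m + 1 + 1 = m + 2 from rfl, h2]
  field_simp
  ring

/-- Normalised planar numbers. -/
noncomputable def cc (m : ℕ) : ℝ := ee m / (2 * m + 1)

theorem cc_pos (m : ℕ) : 0 < cc m := by
  have := ee_pos m
  rw [cc]
  positivity

theorem cc_le_one (m : ℕ) : cc m ≤ 1 := by
  rw [cc, div_le_one (by positivity)]
  have := ee_le_one m
  have h : (0 : ℝ) ≤ m := Nat.cast_nonneg m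
  linarith

theorem ee_eq (m : ℕ) : ee m = (2 * m + 1) * cc m := by
  rw [cc]
  field_simp

theorem cc_succ (m : ℕ) : cc (m + 1) = cc m * ((2 * m + 1) / (2 * m + 6)) := by
  rw [cc, cc, ee_succ]
  push_cast
  field_simp
  ring

theorem cc_sixteen (m : ℕ) : cc m ≤ 16 * cc (m + 2) := by
  have h1 : cc (m + 2) = cc m * ((2 * m + 1) / (2 * m + 6)) * ((2 * m + 3) / (2 * m + 8)) := by
    rw [show m + 2 = (m + 1) + 1 from rfl, cc_succ, cc_succ]
    push_cast
    congr 2
    · ring
    · ring
  rw [h1]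
  have h2 := cc_pos m
  have h3 : 1 ≤ 16 * (((2 * (m : ℝ) + 1) / (2 * m + 6)) * ((2 * m + 3) / (2 * m + 8))) := by
    rw [div_mul_div_comm, ← mul_div_assoc, le_div_iff₀ (by positivity)]
    have : (0 : ℝ) ≤ m := Nat.cast_nonneg m
    nlinarith [this]
  nlinarith [mul_le_mul_of_nonneg_left h3 h2.le]

/-- The normalised recurrence (`q n = Q_n(z) / 12^n`). -/
structure NRec (z : ℝ) (q : ℕ → ℝ) : Prop where
  h0 : q 0 = 1
  h1 : q 1 = 1 / 6
  hrec : ∀ m : ℕ, ((m : ℝ) + 3) * q (m + 2) = (2 * m + 3) / 3 * q (m + 1) +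
    (2 * m + 1) * (m + 1) * (2 * m + 3) * (z / 144) * q m +
    1 / 48 * ∑ p ∈ antidiagonal m,
      (2 * (p.1 : ℝ) + 1) * (2 * (p.2 : ℝ) + 1) * (q p.1 * q p.2)

theorem nrec_cc : NRec 0 cc := by
  refine ⟨?_, ?_, ?_⟩
  · simp [cc, ee_zero]
  · rw [show (1 : ℕ) = 0 + 1 from rfl, cc_succ]
    simp [cc, ee_zero]
  · intro m
    have h1 : ∑ p ∈ antidiagonal m, (2 * (p.1 : ℝ) + 1) * (2 * (p.2 : ℝ) + 1) * (cc p.1 * cc p.2) =
        16 * ee (m + 2) - 8 * ee (m + 1) := by
      rw [← conv_ee]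
      refine Finset.sum_congr rfl fun p _ => ?_
      rw [ee_eq, ee_eq]
      ring
    rw [h1, ee_succ (m + 1), cc_succ (m + 1), ee_eq (m + 1)]
    push_cast
    have h2 : (2 * ((m : ℝ) + 1) + 6) ≠ 0 := by positivity
    field_simp
    ring

theorem NRec.pos {z : ℝ} {q : ℕ → ℝ} (h : NRec z q) (hz : 0 ≤ z) (n : ℕ) : 0 < q n := by
  induction n using Nat.strong_induction_on with
  | _ n ih =>
    match n with
    | 0 => rw [h.h0]; norm_num
    | 1 => rw [h.h1]; norm_num
    | m + 2 =>
      have h1 := h.hrec m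
      have h2 := ih m (by omega)
      have h3 := ih (m + 1) (by omega)
      have h4 : 0 ≤ ∑ p ∈ antidiagonal m,
          (2 * (p.1 : ℝ) + 1) * (2 * (p.2 : ℝ) + 1) * (q p.1 * q p.2) := by
        apply Finset.sum_nonneg
        intro p hp
        rw [Finset.HasAntidiagonal.mem_antidiagonal] at hp
        have h5 := ih p.1 (by omega)
        have h6 := ih p.2 (by omega)
        positivity
      have h7 : 0 < ((m : ℝ) + 3) * q (m + 2) := by
        rw [h1]
        have h8 : 0 < (2 * (m : ℝ) + 3) / 3 * q (m + 1) := by positivity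
        have h9 : 0 ≤ (2 * (m : ℝ) + 1) * (m + 1) * (2 * m + 3) * (z / 144) * q m := by positivity
        linarith
      exact (mul_pos_iff_of_pos_left (by positivity)).mp h7

/-- Comparison of solutions. -/
theorem NRec.mono {z z' : ℝ} {q q' : ℕ → ℝ} (h : NRec z q) (h' : NRec z' q') (hz : 0 ≤ z)
    (hzz : z ≤ z') (n : ℕ) : q n ≤ q' n := by
  induction n using Nat.strong_induction_on with
  | _ n ih =>
    match n with
    | 0 => rw [h.h0, h'.h0]
    | 1 => rw [h.h1, h'.h1]
    | m + 2 =>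
      have h4 : ∑ p ∈ antidiagonal m,
          (2 * (p.1 : ℝ) + 1) * (2 * (p.2 : ℝ) + 1) * (q p.1 * q p.2) ≤
          ∑ p ∈ antidiagonal m,
          (2 * (p.1 : ℝ) + 1) * (2 * (p.2 : ℝ) + 1) * (q' p.1 * q' p.2) := by
        apply Finset.sum_le_sum
        intro p hp
        rw [Finset.HasAntidiagonal.mem_antidiagonal] at hp
        have h5 := ih p.1 (by omega)
        have h6 := ih p.2 (by omega)
        have h7 := h.pos hz p.1
        have h8 := h.pos hz p.2
        apply mul_le_mul_of_nonneg_left _ (by positivity)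
        exact mul_le_mul h5 h6 h8.le (h7.le.trans h5)
      have h7 : ((m : ℝ) + 3) * q (m + 2) ≤ ((m : ℝ) + 3) * q' (m + 2) := by
        rw [h.hrec m, h'.hrec m]
        have h8 : (2 * (m : ℝ) + 3) / 3 * q (m + 1) ≤ (2 * (m : ℝ) + 3) / 3 * q' (m + 1) :=
          mul_le_mul_of_nonneg_left (ih (m + 1) (by omega)) (by positivity)
        have h9 : (2 * (m : ℝ) + 1) * (m + 1) * (2 * m + 3) * (z / 144) * q m ≤
            (2 * (m : ℝ) + 1) * (m + 1) * (2 * m + 3) * (z' / 144) * q' m := by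
          apply mul_le_mul _ (ih m (by omega)) (h.pos hz m).le _
          · apply mul_le_mul_of_nonneg_left _ (by positivity)
            linarith
          · have : 0 ≤ z' := hz.trans hzz
            positivity
        linarith
      exact le_of_mul_le_mul_left h7 (by positivity)

theorem NRec.cc_le {z : ℝ} {q : ℕ → ℝ} (h : NRec z q) (hz : 0 ≤ z) (n : ℕ) : cc n ≤ q n :=
  nrec_cc.mono h le_rfl hz n

/-- Upper bound (B1). -/
theorem NRec.le_exp {z : ℝ} {q : ℕ → ℝ} (h : NRec z q) (hz : 0 ≤ z) (n : ℕ) :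
    q n ≤ cc n * Real.exp ((n : ℝ) ^ 3 * z) := by
  induction n using Nat.strong_induction_on with
  | _ n ih =>
    match n with
    | 0 => rw [h.h0, nrec_cc.h0]; simp
    | 1 =>
      rw [h.h1, nrec_cc.h1]
      exact le_mul_of_one_le_right (by norm_num) (Real.one_le_exp (by positivity))
    | m + 2 =>
      set E := Real.exp (((m : ℝ) + 1) ^ 3 * z) with hE
      have hEpos : 0 < E := Real.exp_pos _
      have hmono : ∀ k : ℕ, k ≤ m + 1 → Real.exp ((k : ℝ) ^ 3 * z) ≤ E := by
        intro k hk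
        apply Real.exp_le_exp.mpr
        apply mul_le_mul_of_nonneg_right _ hz
        have : (k : ℝ) ≤ (m : ℝ) + 1 := by exact_mod_cast hk
        gcongr
      have h4 : ∑ p ∈ antidiagonal m,
          (2 * (p.1 : ℝ) + 1) * (2 * (p.2 : ℝ) + 1) * (q p.1 * q p.2) ≤
          E * ∑ p ∈ antidiagonal m,
          (2 * (p.1 : ℝ) + 1) * (2 * (p.2 : ℝ) + 1) * (cc p.1 * cc p.2) := by
        rw [Finset.mul_sum]
        apply Finset.sum_le_sum
        intro p hp
        rw [Finset.HasAntidiagonal.mem_antidiagonal] at hp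
        have h5 := ih p.1 (by omega)
        have h6 := ih p.2 (by omega)
        have h7 := cc_pos p.1
        have h8 := cc_pos p.2
        have h9 : q p.1 * q p.2 ≤ (cc p.1 * Real.exp ((p.1 : ℝ) ^ 3 * z)) *
            (cc p.2 * Real.exp ((p.2 : ℝ) ^ 3 * z)) :=
          mul_le_mul h5 h6 (h.pos hz p.2).le (by positivity)
        have h10 : Real.exp ((p.1 : ℝ) ^ 3 * z) * Real.exp ((p.2 : ℝ) ^ 3 * z) ≤ E := by
          rw [← Real.exp_add, ← add_mul]
          refine le_trans ?_ (hmono m (by omega))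
          apply Real.exp_le_exp.mpr
          apply mul_le_mul_of_nonneg_right _ hz
          have h11 : (m : ℝ) = p.1 + p.2 := by rw [← hp]; push_cast; ring
          rw [h11]
          have h12 : (0 : ℝ) ≤ p.1 := Nat.cast_nonneg _
          have h13 : (0 : ℝ) ≤ p.2 := Nat.cast_nonneg _
          nlinarith [mul_nonneg h12 h13, mul_nonneg (mul_nonneg h12 h13) h12,
            mul_nonneg (mul_nonneg h12 h13) h13]
        calc (2 * (p.1 : ℝ) + 1) * (2 * (p.2 : ℝ) + 1) * (q p.1 * q p.2)
            ≤ (2 * (p.1 : ℝ) + 1) * (2 * (p.2 : ℝ) + 1) *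
              ((cc p.1 * Real.exp ((p.1 : ℝ) ^ 3 * z)) *
            (cc p.2 * Real.exp ((p.2 : ℝ) ^ 3 * z))) :=
              mul_le_mul_of_nonneg_left h9 (by positivity)
          _ = (2 * (p.1 : ℝ) + 1) * (2 * (p.2 : ℝ) + 1) * (cc p.1 * cc p.2) *
              (Real.exp ((p.1 : ℝ) ^ 3 * z) * Real.exp ((p.2 : ℝ) ^ 3 * z)) := by ring
          _ ≤ (2 * (p.1 : ℝ) + 1) * (2 * (p.2 : ℝ) + 1) * (cc p.1 * cc p.2) * E :=
              mul_le_mul_of_nonneg_left h10 (by positivity)
          _ = E * ((2 * (p.1 : ℝ) + 1) * (2 * (p.2 : ℝ) + 1) * (cc p.1 * cc p.2)) := by ring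
      have h5 : q (m + 1) ≤ E * cc (m + 1) := by
        refine (ih (m + 1) (by omega)).trans ?_
        have h6 := hmono (m + 1) le_rfl
        nlinarith [mul_le_mul_of_nonneg_left h6 (cc_pos (m + 1)).le]
      have h6 : q m ≤ E * cc m := by
        refine (ih m (by omega)).trans ?_
        have h6 := hmono m (by omega)
        nlinarith [mul_le_mul_of_nonneg_left h6 (cc_pos m).le]
      -- the growth of the exponential
      have h7 : E * (1 + (3 * (m : ℝ) ^ 2 + 9 * m + 7) * z) ≤
          Real.exp (((m + 2 : ℕ) : ℝ) ^ 3 * z) := by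
        have h8 : Real.exp (((m + 2 : ℕ) : ℝ) ^ 3 * z) =
            E * Real.exp ((3 * (m : ℝ) ^ 2 + 9 * m + 7) * z) := by
          rw [hE, ← Real.exp_add]
          congr 1
          push_cast
          ring
        rw [h8]
        apply mul_le_mul_of_nonneg_left _ hEpos.le
        have := Real.add_one_le_exp ((3 * (m : ℝ) ^ 2 + 9 * m + 7) * z)
        linarith
      have h8 := nrec_cc.hrec m
      simp only [zero_div, mul_zero, zero_mul, add_zero] at h8
      have h9 := h.hrec m
      have h10 : ((m : ℝ) + 3) * q (m + 2) ≤ ((m : ℝ) + 3) * (cc (m + 2) *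
          Real.exp (((m + 2 : ℕ) : ℝ) ^ 3 * z)) := by
        have h11 : (2 * (m : ℝ) + 1) * (m + 1) * (2 * m + 3) * (z / 144) * q m ≤
            (2 * (m : ℝ) + 1) * (m + 1) * (2 * m + 3) * (z / 144) * (E * (16 * cc (m + 2))) := by
          apply mul_le_mul_of_nonneg_left _ (by positivity)
          refine h6.trans ?_
          exact mul_le_mul_of_nonneg_left (cc_sixteen m) hEpos.le
        have h12 : (2 * (m : ℝ) + 1) * (m + 1) * (2 * m + 3) * (z / 144) * (E * (16 * cc (m + 2))) ≤
            ((m : ℝ) + 3) * cc (m + 2) * E * ((3 * (m : ℝ) ^ 2 + 9 * m + 7) * z) := by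
          have h13 : (2 * (m : ℝ) + 1) * (m + 1) * (2 * m + 3) / 9 ≤
              ((m : ℝ) + 3) * (3 * (m : ℝ) ^ 2 + 9 * m + 7) := by
            have : (0 : ℝ) ≤ m := Nat.cast_nonneg m
            nlinarith [mul_nonneg this this, mul_nonneg (mul_nonneg this this) this]
          have h14 : 0 ≤ cc (m + 2) * E * z := by
            have := cc_pos (m + 2)
            positivity
          nlinarith [mul_le_mul_of_nonneg_right h13 h14]
        calc ((m : ℝ) + 3) * q (m + 2) ≤ (2 * m + 3) / 3 * (E * cc (m + 1)) +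
              ((m : ℝ) + 3) * cc (m + 2) * E * ((3 * (m : ℝ) ^ 2 + 9 * m + 7) * z) +
              1 / 48 * (E * ∑ p ∈ antidiagonal m,
          (2 * (p.1 : ℝ) + 1) * (2 * (p.2 : ℝ) + 1) * (cc p.1 * cc p.2)) := by
                rw [h9]
                have h15 : (2 * (m : ℝ) + 3) / 3 * q (m + 1) ≤
                    (2 * m + 3) / 3 * (E * cc (m + 1)) :=
                  mul_le_mul_of_nonneg_left h5 (by positivity)
                linarith
          _ = ((m : ℝ) + 3) * cc (m + 2) * (E * (1 + (3 * (m : ℝ) ^ 2 + 9 * m + 7) * z)) := by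
                linear_combination (-E) * h8
          _ ≤ ((m : ℝ) + 3) * cc (m + 2) * Real.exp (((m + 2 : ℕ) : ℝ) ^ 3 * z) := by
                apply mul_le_mul_of_nonneg_left h7
                have := cc_pos (m + 2)
                positivity
          _ = _ := by ring
      exact le_of_mul_le_mul_left h10 (by positivity)

end Pool.Agent.H48.Quad
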