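import Pool.Agent.H48.Quad.B0

set_option autoImplicit false

/-!
# Part B: the limit function
-/

namespace Pool.Agent.H48.Quad

open Finset Filter Topology

/-- Truncated version of the function of the implicit equation. -/
noncomputable def GK (K : ℕ) (x : ℝ) : ℝ := 2 / 3 * x + 1 / 12 * ∑ i ∈ range K, ee i * x ^ (i + 2)

/-- The function of the implicit equation. -/
noncomputable def GG (x : ℝ) : ℝ := 2 / 3 * x + 1 / 12 * ∑' i, ee i * x ^ (i + 2)

theorem summable_term {x : ℝ} (h0 : 0 ≤ x) (h1 : x ≤ 1) : Summable fun i => ee i * x ^ (i + 2) := by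
  refine Summable.of_nonneg_of_le (fun i => ?_) (fun i => ?_) summable_ee
  · have := ee_pos i
    positivity
  · have h2 : x ^ (i + 2) ≤ 1 := pow_le_one₀ h0 h1
    have := ee_pos i
    nlinarith

theorem GG_zero : GG 0 = 0 := by
  simp [GG]

theorem GG_one : GG 1 = 1 := by
  simp [GG, hasSum_ee.tsum_eq]
  norm_num

theorem GK_le_GG (K : ℕ) {x : ℝ} (h0 : 0 ≤ x) (h1 : x ≤ 1) : GK K x ≤ GG x := by
  rw [GK, GG]
  have h := (summable_term h0 h1).sum_le_tsum (range K) (fun i _ => by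
    have := ee_pos i
    positivity)
  linarith

/-- The tail. -/
noncomputable def tl (K : ℕ) : ℝ := 1 / 12 * (4 - ∑ i ∈ range K, ee i)

theorem tl_tendsto : Tendsto tl atTop (𝓝 0) := by
  have h := hasSum_ee.tendsto_sum_nat
  have h1 : Tendsto tl atTop (𝓝 (1 / 12 * (4 - 4))) := (h.const_sub 4).const_mul (1 / 12)
  simpa using h1

theorem tl_nonneg (K : ℕ) : 0 ≤ tl K := by
  have h := summable_ee.sum_le_tsum (range K) (fun i _ => (ee_pos i).le)
  rw [hasSum_ee.tsum_eq] at h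
  rw [tl]
  linarith

theorem GG_le_GK (K : ℕ) {x : ℝ} (h0 : 0 ≤ x) (h1 : x ≤ 1) : GG x ≤ GK K x + tl K := by
  rw [GK, GG, tl]
  have h := (summable_term h0 h1).sum_add_tsum_nat_add K
  have h2 := summable_ee.sum_add_tsum_nat_add K
  rw [hasSum_ee.tsum_eq] at h2
  have h3 : ∑' i, ee (i + K) * x ^ (i + K + 2) ≤ ∑' i, ee (i + K) := by
    refine Summable.tsum_le_tsum (fun i => ?_) ?_ ?_
    · have h2 : x ^ (i + K + 2) ≤ 1 := pow_le_one₀ h0 h1
      have := ee_pos (i + K)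
      nlinarith
    · exact (summable_nat_add_iff K).mpr (summable_term h0 h1)
    · exact (summable_nat_add_iff K).mpr summable_ee
  linarith

theorem GK_slope (K : ℕ) {x y : ℝ} (h0 : 0 ≤ x) (hxy : x ≤ y) :
    2 / 3 * (y - x) ≤ GK K y - GK K x := by
  rw [GK, GK]
  have h : ∑ i ∈ range K, ee i * x ^ (i + 2) ≤ ∑ i ∈ range K, ee i * y ^ (i + 2) := by
    apply Finset.sum_le_sum
    intro i _
    have := ee_pos i
    gcongr
  linarith

theorem GG_slope {x y : ℝ} (h0 : 0 ≤ x) (hxy : x ≤ y) (hy : y ≤ 1) :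
    2 / 3 * (y - x) ≤ GG y - GG x := by
  rw [GG, GG]
  have h : ∑' i, ee i * x ^ (i + 2) ≤ ∑' i, ee i * y ^ (i + 2) := by
    refine Summable.tsum_le_tsum (fun i => ?_) (summable_term h0 (hxy.trans hy))
      (summable_term (h0.trans hxy) hy)
    have := ee_pos i
    gcongr
  linarith

theorem GG_le_self {x : ℝ} (h0 : 0 ≤ x) (h1 : x ≤ 1) : GG x ≤ x := by
  have h2 : ∑' i, ee i * x ^ (i + 2) ≤ ∑' i, ee i * x := by
    refine Summable.tsum_le_tsum (fun i => ?_) (summable_term h0 h1) (summable_ee.mul_right x)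
    have := ee_pos i
    have h3 : x ^ (i + 2) ≤ x := by
      calc x ^ (i + 2) ≤ x ^ 1 := pow_le_pow_of_le_one h0 h1 (by omega)
        _ = x := pow_one x
    gcongr
  rw [tsum_mul_right, hasSum_ee.tsum_eq] at h2
  rw [GG]
  linarith

theorem continuousOn_GG : ContinuousOn GG (Set.Icc 0 1) := by
  unfold GG
  apply ContinuousOn.add
  · fun_prop
  · apply ContinuousOn.mul continuousOn_const
    refine continuousOn_tsum (u := ee) (fun i => by fun_prop) summable_ee ?_
    intro i x hx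
    rw [Real.norm_eq_abs, abs_of_nonneg]
    · have h2 : x ^ (i + 2) ≤ 1 := pow_le_one₀ hx.1 hx.2
      have := ee_pos i
      nlinarith
    · have := ee_pos i
      have := hx.1
      positivity

theorem exists_X (u : ℝ) : ∃ x : ℝ, 0 < x ∧ x ≤ 1 ∧ GG x + u ^ 2 * x ^ 2 / 36 = 1 := by
  have hc : ContinuousOn (fun x : ℝ => GG x + u ^ 2 * x ^ 2 / 36) (Set.Icc 0 1) := by
    apply continuousOn_GG.add
    fun_prop
  have h := intermediate_value_Icc (zero_le_one' ℝ) hc
  have h1 : (1 : ℝ) ∈ Set.Icc (GG 0 + u ^ 2 * 0 ^ 2 / 36) (GG 1 + u ^ 2 * 1 ^ 2 / 36) := by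
    rw [GG_zero, GG_one]
    constructor
    · norm_num
    · have : 0 ≤ u ^ 2 := sq_nonneg u
      linarith
  obtain ⟨x, hx, hx1⟩ := h h1
  refine ⟨x, ?_, hx.2, hx1⟩
  rcases hx.1.eq_or_lt with h2 | h2
  · exfalso
    dsimp only at hx1
    rw [← h2, GG_zero] at hx1
    norm_num at hx1
  · exact h2

/-- The normalised limit of the ratios. -/
noncomputable def XX (u : ℝ) : ℝ := Classical.choose (exists_X u)

theorem XX_pos (u : ℝ) : 0 < XX u := (Classical.choose_spec (exists_X u)).1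

theorem XX_le_one (u : ℝ) : XX u ≤ 1 := (Classical.choose_spec (exists_X u)).2.1

theorem XX_eq (u : ℝ) : GG (XX u) + u ^ 2 * XX u ^ 2 / 36 = 1 :=
  (Classical.choose_spec (exists_X u)).2.2

/-- Slope bound for the implicit function. -/
theorem XX_slope (u v : ℝ) : 2 / 3 * |XX u - XX v| ≤ |u ^ 2 - v ^ 2| / 36 := by
  wlog h : XX u ≤ XX v generalizing u v
  · have := this v u (le_of_not_ge h)
    rw [abs_sub_comm, abs_sub_comm (u ^ 2)]
    exact this
  have h1 := GG_slope (XX_pos u).le h (XX_le_one v)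
  have h2 := XX_eq u
  have h3 := XX_eq v
  have h4 : XX u ^ 2 ≤ XX v ^ 2 := by
    have := (XX_pos u).le
    gcongr
  have h5 : XX u ^ 2 ≤ 1 := pow_le_one₀ (XX_pos u).le (XX_le_one u)
  have h5' : 0 ≤ XX u ^ 2 := sq_nonneg _
  rw [abs_of_nonpos (by linarith)]
  have h6 : GG (XX v) - GG (XX u) ≤ (u ^ 2 - v ^ 2) * XX u ^ 2 / 36 := by
    have h7 : v ^ 2 * XX u ^ 2 ≤ v ^ 2 * XX v ^ 2 := by
      have := sq_nonneg v
      gcongr
    linarith
  have h8 : (u ^ 2 - v ^ 2) * XX u ^ 2 ≤ |u ^ 2 - v ^ 2| := by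
    calc (u ^ 2 - v ^ 2) * XX u ^ 2 ≤ |u ^ 2 - v ^ 2| * XX u ^ 2 := by
          apply mul_le_mul_of_nonneg_right (le_abs_self _) h5'
      _ ≤ |u ^ 2 - v ^ 2| * 1 := by gcongr
      _ = |u ^ 2 - v ^ 2| := mul_one _
  linarith

theorem continuous_XX : Continuous XX := by
  rw [continuous_iff_continuousAt]
  intro u
  rw [ContinuousAt, tendsto_iff_dist_tendsto_zero]
  have h1 : Tendsto (fun v : ℝ => |v ^ 2 - u ^ 2| / 24) (𝓝 u) (𝓝 0) := by
    have : Continuous (fun v : ℝ => |v ^ 2 - u ^ 2| / 24) := by fun_prop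
    have h2 := this.tendsto u
    simpa using h2
  refine squeeze_zero (fun v => dist_nonneg) (fun v => ?_) h1
  rw [Real.dist_eq]
  have := XX_slope v u
  linarith

theorem XX_zero : XX 0 = 1 := by
  have h1 := XX_eq 0
  have h2 := GG_slope (XX_pos 0).le (XX_le_one 0) le_rfl
  rw [GG_one] at h2
  have h3 := XX_le_one 0
  simp at h1
  linarith

theorem XX_strictAnti {u v : ℝ} (hu : 0 ≤ u) (huv : u < v) : XX v < XX u := by
  by_contra h
  push Not at h
  have h1 := GG_slope (XX_pos u).le h (XX_le_one v)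
  have h2 := XX_eq u
  have h3 := XX_eq v
  have h4 : u ^ 2 * XX u ^ 2 < v ^ 2 * XX v ^ 2 := by
    have h5 : u ^ 2 < v ^ 2 := by gcongr
    have h6 : XX u ^ 2 ≤ XX v ^ 2 := by
      have := (XX_pos u).le
      gcongr
    have h7 : 0 < XX v ^ 2 := by
      have := XX_pos v
      positivity
    calc u ^ 2 * XX u ^ 2 ≤ u ^ 2 * XX v ^ 2 := by gcongr
      _ < v ^ 2 * XX v ^ 2 := by gcongr
  linarith

theorem XX_anti {u v : ℝ} (hu : 0 ≤ u) (huv : u ≤ v) : XX v ≤ XX u := by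
  rcases huv.eq_or_lt with h | h
  · rw [h]
  · exact (XX_strictAnti hu h).le

theorem XX_lt_one {u : ℝ} (hu : 0 < u) : XX u < 1 := by
  have := XX_strictAnti le_rfl hu
  rwa [XX_zero] at this

theorem mul_XX_le {u : ℝ} (hu : 0 ≤ u) : u * XX u ≤ 6 := by
  have h1 := XX_eq u
  have h2 := GG_slope le_rfl (XX_pos u).le (XX_le_one u)
  rw [GG_zero] at h2
  have h3 := XX_pos u
  have h4 : (u * XX u) ^ 2 ≤ 6 ^ 2 := by nlinarith
  exact le_of_sq_le_sq h4 (by norm_num) |> fun h => h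

theorem le_mul_XX (u : ℝ) : 36 * (1 - XX u) ≤ (u * XX u) ^ 2 := by
  have h1 := XX_eq u
  have h2 := GG_le_self (XX_pos u).le (XX_le_one u)
  nlinarith

theorem tendsto_mul_XX : Tendsto (fun u => u * XX u) atTop (𝓝 6) := by
  have hX : Tendsto XX atTop (𝓝 0) := by
    have h1 : Tendsto (fun u : ℝ => 6 / u) atTop (𝓝 0) :=
      tendsto_const_nhds.div_atTop tendsto_id
    refine tendsto_of_tendsto_of_tendsto_of_le_of_le' tendsto_const_nhds h1 ?_ ?_
    · exact Eventually.of_forall fun u => (XX_pos u).le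
    · filter_upwards [eventually_gt_atTop 0] with u hu
      rw [le_div_iff₀ hu, mul_comm]
      exact mul_XX_le hu.le
  have h2 : Tendsto (fun u => 6 * (1 - XX u)) atTop (𝓝 6) := by
    have := (hX.const_sub 1).const_mul 6
    simpa using this
  refine tendsto_of_tendsto_of_tendsto_of_le_of_le' h2 tendsto_const_nhds ?_ ?_
  · filter_upwards [eventually_gt_atTop 0] with u hu
    have h3 := le_mul_XX u
    have h4 : (6 * (1 - XX u)) ^ 2 ≤ (u * XX u) ^ 2 := by
      have h5 : 0 ≤ 1 - XX u := by linarith [XX_le_one u]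
      have h6 : 1 - XX u ≤ 1 := by linarith [XX_pos u]
      nlinarith
    have h7 : 0 ≤ u * XX u := by
      have := XX_pos u
      positivity
    exact abs_le_of_sq_le_sq' h4 h7 |>.2
  · filter_upwards [eventually_ge_atTop 0] with u hu
    exact mul_XX_le hu

/-- The limit of `Q_{n-1} / Q_n` at `z = 1 / N^2`, `n / N → u`. -/
noncomputable def AA0 (u : ℝ) : ℝ := XX u / 12

theorem AA0_pos (u : ℝ) : 0 < AA0 u := div_pos (XX_pos u) (by norm_num)

theorem AA0_le (u : ℝ) : AA0 u ≤ 1 / 12 := by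
  rw [AA0]
  linarith [XX_le_one u]

theorem AA0_zero : AA0 0 = 1 / 12 := by rw [AA0, XX_zero]

theorem continuous_AA0 : Continuous AA0 := continuous_XX.div_const 12

theorem AA0_strictAnti {u v : ℝ} (hu : 0 ≤ u) (huv : u < v) : AA0 v < AA0 u := by
  rw [AA0, AA0]
  linarith [XX_strictAnti hu huv]

theorem AA0_anti {u v : ℝ} (hu : 0 ≤ u) (huv : u ≤ v) : AA0 v ≤ AA0 u := by
  rw [AA0, AA0]
  linarith [XX_anti hu huv]

theorem mul_AA0_le {u : ℝ} (hu : 0 ≤ u) : u * AA0 u ≤ 1 / 2 := by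
  rw [AA0]
  linarith [mul_XX_le hu]

theorem tendsto_mul_AA0 : Tendsto (fun u => u * AA0 u) atTop (𝓝 (1 / 2)) := by
  have h := tendsto_mul_XX.div_const 12
  norm_num at h
  refine h.congr fun u => ?_
  rw [AA0]
  ring

end Pool.Agent.H48.Quad
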