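import Pool.Agent.H48.Quad.B2b

set_option autoImplicit false

/-!
# Part B: the limit of the ratios, and its consequences
-/

namespace Pool.Agent.H48.Quad

open Finset Filter Topology Pool.Agent.H63.Quad

theorem limA : LimA AA0 := by
  intro τ hτ n N hN hnN
  have hkey : Tendsto (fun i => yy (N i) (n i)) atTop (𝓝 (XX τ)) := by
    rw [Metric.tendsto_nhds]
    intro ε hε
    obtain ⟨n0, hn0⟩ := U_bound (ε / 3) (by positivity)
    have hL := L_bound (τ / 2) (2 * τ) (ε / 3) (by positivity) (by positivity)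
    have e1 := hN.eventually hL
    have e2 := hN.eventually (eventually_ge_atTop 1)
    have e3 : ∀ᶠ i in atTop, τ / 2 < (n i : ℝ) / N i :=
      hnN.eventually (lt_mem_nhds (by linarith))
    have e4 : ∀ᶠ i in atTop, (n i : ℝ) / N i < 2 * τ :=
      hnN.eventually (gt_mem_nhds (by linarith))
    have e5 : ∀ᶠ i in atTop, dist (XX ((n i : ℝ) / N i)) (XX τ) < ε / 3 := by
      have h := (continuous_XX.tendsto τ).comp hnN
      exact (Metric.tendsto_nhds.mp h) (ε / 3) (by positivity)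
    have e6 : ∀ᶠ i in atTop, 2 * (n0 : ℝ) / τ ≤ (N i : ℝ) :=
      (tendsto_natCast_atTop_atTop.comp hN).eventually (eventually_ge_atTop _)
    filter_upwards [e1, e2, e3, e4, e5, e6] with i h1 h2 h3 h4 h5 h6
    have hNpos : (0 : ℝ) < N i := by exact_mod_cast h2
    rw [lt_div_iff₀ hNpos] at h3
    rw [div_lt_iff₀ hNpos] at h4
    rw [div_le_iff₀ hτ] at h6
    have h7 := h1 (n i) h3.le h4.le
    have h8 : n0 ≤ n i := by
      have : (n0 : ℝ) ≤ n i := by linarith
      exact_mod_cast this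
    have h9 := hn0 (N i) h2 (n i) h8
    rw [Real.dist_eq, abs_lt] at h5 ⊢
    constructor <;> linarith [h5.1, h5.2]
  have h := hkey.div_const 12
  refine h.congr fun i => ?_
  rw [yy_eq]
  ring

/-- The ratio at the index `⌈l N⌉`. -/
theorem aN_ceil (l : ℝ) (hl : 0 < l) :
    Tendsto (fun N : ℕ => aN N ⌈l * N⌉₊) atTop (𝓝 (AA0 l)) := by
  refine limA l hl (fun N => ⌈l * N⌉₊) (fun N => N) tendsto_id ?_
  exact tendsto_nat_ceil_mul_div_atTop hl.le |>.comp tendsto_natCast_atTop_atTop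

/-- The ratio at the index `⌊l N⌋`. -/
theorem aN_floor (l : ℝ) (hl : 0 < l) :
    Tendsto (fun N : ℕ => aN N ⌊l * N⌋₊) atTop (𝓝 (AA0 l)) := by
  refine limA l hl (fun N => ⌊l * N⌋₊) (fun N => N) tendsto_id ?_
  exact tendsto_nat_floor_mul_div_atTop hl.le |>.comp tendsto_natCast_atTop_atTop

theorem lb : LB := by
  intro t ht
  refine ⟨AA0 t / 2, by have := AA0_pos t; positivity, ?_⟩
  have h1 := AA0_pos t
  filter_upwards [(aN_ceil t ht).eventually (lt_mem_nhds (show AA0 t / 2 < AA0 t by linarith)),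
    eventually_ge_atTop 1] with N h2 hN k hk
  refine h2.le.trans (aN_antitone N hN ?_)
  have h3 : (k : ℝ) ≤ ⌈t * N⌉₊ := hk.trans (Nat.le_ceil _)
  exact_mod_cast h3

theorem smallIdx : SmallIdx := by
  intro c hc
  have h1 : ∀ᶠ u in 𝓝 (0 : ℝ), c < AA0 u :=
    (continuous_AA0.tendsto 0).eventually (lt_mem_nhds (by rw [AA0_zero]; exact hc))
  obtain ⟨l, hl, hl2⟩ : ∃ l : ℝ, c < AA0 l ∧ 0 < l := by
    have h2 : ∀ᶠ u in 𝓝[>] (0 : ℝ), c < AA0 u := h1.filter_mono nhdsWithin_le_nhds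
    exact (h2.and self_mem_nhdsWithin).exists
  refine ⟨l, hl2, ?_⟩
  filter_upwards [(aN_ceil l hl2).eventually (lt_mem_nhds hl), eventually_ge_atTop 1] with N h2 hN k hk
  refine h2.trans_le (aN_antitone N hN ?_)
  have h3 : (k : ℝ) ≤ ⌈l * N⌉₊ := hk.trans (Nat.le_ceil _)
  exact_mod_cast h3

theorem ed : ED := by
  intro l0 hl0
  have h1 : AA0 l0 < 1 / 12 := by
    have := AA0_strictAnti le_rfl hl0
    rwa [AA0_zero] at this
  have h0 := AA0_pos l0
  obtain ⟨c1, hc1, hc1'⟩ := exists_between h1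
  obtain ⟨c, hc, hc'⟩ := exists_between hc1'
  have hc1pos : 0 < c1 := by linarith
  have hcpos : 0 < c := by linarith
  refine ⟨c1 / c, by positivity, by rw [div_lt_one hcpos]; exact hc, ?_⟩
  obtain ⟨l, hl, hl'⟩ := smallIdx c hc'
  refine ⟨l, hl, ?_⟩
  filter_upwards [hl', (aN_floor l0 hl0).eventually (gt_mem_nhds hc1), eventually_ge_atTop 1]
    with N h2 h3 hN k j hk hj
  have h4 : aN N k ≤ aN N ⌊l0 * N⌋₊ := by
    apply aN_antitone N hN
    have h5 : ((⌊l0 * N⌋₊ : ℕ) : ℝ) ≤ k := (Nat.floor_le (by positivity)).trans hk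
    exact_mod_cast h5
  have h5 := h2 j hj
  calc aN N k ≤ c1 := h4.trans h3.le
    _ = c1 / c * c := by field_simp
    _ ≤ c1 / c * aN N j := by gcongr

end Pool.Agent.H48.Quad
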