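import Pool.Agent.H48.Quad.B1
import Pool.Agent.H63.Quad.BPlan

set_option autoImplicit false

/-!
# Part B: upper bound for the ratios
-/

namespace Pool.Agent.H48.Quad

open Finset Filter Topology Pool.Agent.H63.Quad

/-- Normalised values. -/
noncomputable def qN (N n : ℕ) : ℝ := yN N n / 12 ^ n

theorem qN_pos (N n : ℕ) : 0 < qN N n := div_pos (yN_pos N n) (by positivity)

theorem nrec_qN (N : ℕ) : NRec (1 / (N : ℝ) ^ 2) (qN N) := by
  refine ⟨?_, ?_, ?_⟩
  · simp [qN, yN_zero]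
  · simp [qN, yN_one]; norm_num
  · intro m
    have h1 := yN_rec N m
    have h2 : ∑ p ∈ antidiagonal m, (2 * (p.1 : ℝ) + 1) * (2 * (p.2 : ℝ) + 1) *
        (qN N p.1 * qN N p.2) = (∑ p ∈ antidiagonal m, ((2 * (p.1 : ℝ) + 1) * yN N p.1)
          * ((2 * (p.2 : ℝ) + 1) * yN N p.2)) / 12 ^ m := by
      rw [Finset.sum_div]
      refine Finset.sum_congr rfl fun p hp => ?_
      rw [Finset.HasAntidiagonal.mem_antidiagonal] at hp
      rw [qN, qN, ← hp, pow_add]
      field_simp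
    rw [h2]
    simp only [qN]
    rw [pow_succ, pow_succ]
    field_simp
    field_simp at h1
    linear_combination 20736 * h1

/-- Normalised ratios. -/
noncomputable def yy (N n : ℕ) : ℝ := qN N n / qN N (n + 1)

theorem yy_pos (N n : ℕ) : 0 < yy N n := div_pos (qN_pos _ _) (qN_pos _ _)

theorem yy_eq (N n : ℕ) : yy N n = 12 * aN N n := by
  rw [yy, aN, qN, qN, pow_succ]
  have := yN_pos N n
  have := yN_pos N (n + 1)
  field_simp

theorem yy_anti (N : ℕ) (hN : 1 ≤ N) : Antitone (yy N) := by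
  intro a b hab
  rw [yy_eq, yy_eq]
  have := aN_antitone N hN hab
  linarith

theorem qN_succ (N n : ℕ) : qN N n = yy N n * qN N (n + 1) := by
  rw [yy]
  have := qN_pos N (n + 1)
  field_simp

theorem qN_le_pow (N m : ℕ) (y : ℝ) (k : ℕ) (h : ∀ j, m ≤ j → j < m + k → yy N j ≤ y) :
    qN N m ≤ y ^ k * qN N (m + k) := by
  induction k with
  | zero => simp
  | succ k ih =>
    have h1 := ih (fun j h1 h2 => h j h1 (by omega))
    have h2 := h (m + k) (by omega) (by omega)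
    rcases Nat.eq_zero_or_pos k with h0 | h0
    · subst h0
      rw [qN_succ N m]
      simp only [zero_add, pow_one, add_zero] at h2 ⊢
      exact mul_le_mul_of_nonneg_right h2 (qN_pos _ _).le
    · have h3 : 0 < y := (yy_pos N m).trans_le (h m le_rfl (by omega))
      calc qN N m ≤ y ^ k * qN N (m + k) := h1
        _ = y ^ k * (yy N (m + k) * qN N (m + k + 1)) := by rw [← qN_succ]
        _ ≤ y ^ k * (y * qN N (m + k + 1)) := by
          have := qN_pos N (m + k + 1)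
          gcongr
        _ = y ^ (k + 1) * qN N (m + (k + 1)) := by rw [pow_succ, add_assoc]; ring

theorem pow_le_qN (N m : ℕ) (y : ℝ) (hy : 0 ≤ y) (k : ℕ)
    (h : ∀ j, m ≤ j → j < m + k → y ≤ yy N j) :
    y ^ k * qN N (m + k) ≤ qN N m := by
  induction k with
  | zero => simp
  | succ k ih =>
    have h1 := ih (fun j h1 h2 => h j h1 (by omega))
    have h2 := h (m + k) (by omega) (by omega)
    calc y ^ (k + 1) * qN N (m + (k + 1)) = y ^ k * (y * qN N (m + k + 1)) := by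
          rw [pow_succ, add_assoc]; ring
      _ ≤ y ^ k * (yy N (m + k) * qN N (m + k + 1)) := by
          have := qN_pos N (m + k + 1)
          gcongr
      _ = y ^ k * qN N (m + k) := by rw [← qN_succ]
      _ ≤ qN N m := h1

theorem anti_lower (f : ℕ → ℕ → ℝ) (hf : ∀ i j, 0 ≤ f i j) (hs : ∀ i j, f i j = f j i)
    (K m : ℕ) (h : 2 * K ≤ m) :
    2 * ∑ i ∈ range K, f i (m - i) ≤ ∑ p ∈ antidiagonal m, f p.1 p.2 := by
  have h1 : ∑ i ∈ range K, f i (m - i) =
      ∑ p ∈ (antidiagonal m).filter (fun p => p.1 < K), f p.1 p.2 := by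
    refine Finset.sum_bij (fun i _ => (i, m - i)) ?_ ?_ ?_ ?_
    · intro i hi
      rw [Finset.mem_range] at hi
      simp only [Finset.mem_filter, Finset.HasAntidiagonal.mem_antidiagonal]
      omega
    · intro i _ j _ hij
      exact (Prod.mk.inj hij).1
    · rintro ⟨a, b⟩ hab
      simp only [Finset.mem_filter, Finset.HasAntidiagonal.mem_antidiagonal] at hab
      refine ⟨a, Finset.mem_range.mpr hab.2, ?_⟩
      rw [Prod.mk.injEq]
      omega
    · intro i _
      rfl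
  have h2 : ∑ i ∈ range K, f i (m - i) =
      ∑ p ∈ (antidiagonal m).filter (fun p => p.2 < K), f p.1 p.2 := by
    refine Finset.sum_bij (fun i _ => (m - i, i)) ?_ ?_ ?_ ?_
    · intro i hi
      rw [Finset.mem_range] at hi
      simp only [Finset.mem_filter, Finset.HasAntidiagonal.mem_antidiagonal]
      omega
    · intro i _ j _ hij
      exact (Prod.mk.inj hij).2
    · rintro ⟨a, b⟩ hab
      simp only [Finset.mem_filter, Finset.HasAntidiagonal.mem_antidiagonal] at hab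
      refine ⟨b, Finset.mem_range.mpr hab.2, ?_⟩
      rw [Prod.mk.injEq]
      omega
    · intro i _
      exact hs _ _
  rw [two_mul]
  nth_rewrite 1 [h1]
  rw [h2, ← Finset.sum_union]
  · apply Finset.sum_le_sum_of_subset_of_nonneg
    · intro p hp
      rw [Finset.mem_union, Finset.mem_filter, Finset.mem_filter] at hp
      rcases hp with hp | hp <;> exact hp.1
    · intro p _ _
      exact hf _ _
  · rw [Finset.disjoint_left]
    rintro p hp hp'
    simp only [Finset.mem_filter, Finset.HasAntidiagonal.mem_antidiagonal] at hp hp'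
    omega

theorem anti_upper (f : ℕ → ℕ → ℝ) (hf : ∀ i j, 0 ≤ f i j) (hs : ∀ i j, f i j = f j i)
    (K m : ℕ) (h : K ≤ m) :
    ∑ p ∈ antidiagonal m, f p.1 p.2 ≤ 2 * ∑ i ∈ range K, f i (m - i) +
      ∑ p ∈ (antidiagonal m).filter (fun p => K ≤ p.1 ∧ K ≤ p.2), f p.1 p.2 := by
  have h1 : ∑ i ∈ range K, f i (m - i) =
      ∑ p ∈ (antidiagonal m).filter (fun p => p.1 < K), f p.1 p.2 := by
    refine Finset.sum_bij (fun i _ => (i, m - i)) ?_ ?_ ?_ ?_
    · intro i hi
      rw [Finset.mem_range] at hi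
      simp only [Finset.mem_filter, Finset.HasAntidiagonal.mem_antidiagonal]
      omega
    · intro i _ j _ hij
      exact (Prod.mk.inj hij).1
    · rintro ⟨a, b⟩ hab
      simp only [Finset.mem_filter, Finset.HasAntidiagonal.mem_antidiagonal] at hab
      refine ⟨a, Finset.mem_range.mpr hab.2, ?_⟩
      rw [Prod.mk.injEq]
      omega
    · intro i _
      rfl
  have h2 : ∑ i ∈ range K, f i (m - i) =
      ∑ p ∈ (antidiagonal m).filter (fun p => p.2 < K), f p.1 p.2 := by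
    refine Finset.sum_bij (fun i _ => (m - i, i)) ?_ ?_ ?_ ?_
    · intro i hi
      rw [Finset.mem_range] at hi
      simp only [Finset.mem_filter, Finset.HasAntidiagonal.mem_antidiagonal]
      omega
    · intro i _ j _ hij
      exact (Prod.mk.inj hij).2
    · rintro ⟨a, b⟩ hab
      simp only [Finset.mem_filter, Finset.HasAntidiagonal.mem_antidiagonal] at hab
      refine ⟨b, Finset.mem_range.mpr hab.2, ?_⟩
      rw [Prod.mk.injEq]
      omega
    · intro i _
      exact hs _ _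
  rw [two_mul]
  nth_rewrite 1 [h1]
  rw [h2]
  rw [Finset.sum_filter, Finset.sum_filter, Finset.sum_filter, ← Finset.sum_add_distrib,
    ← Finset.sum_add_distrib]
  apply Finset.sum_le_sum
  intro p _
  have h3 := hf p.1 p.2
  by_cases h4 : p.1 < K
  · rw [if_pos h4]
    split_ifs <;> linarith
  · by_cases h5 : p.2 < K
    · rw [if_neg h4, if_pos h5]
      split_ifs <;> linarith
    · rw [if_neg h4, if_neg h5, if_pos ⟨by omega, by omega⟩]
      linarith

theorem anti_min (ψ : ℕ → ℝ) (hψ : ∀ i, 0 ≤ ψ i) (K m : ℕ) :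
    ∑ p ∈ (antidiagonal m).filter (fun p => K ≤ p.1 ∧ K ≤ p.2), ψ (min p.1 p.2) ≤
      2 * ∑ k ∈ Ico K (m + 1), ψ k := by
  have h1 : ∑ k ∈ Ico K (m + 1), ψ k =
      ∑ p ∈ (antidiagonal m).filter (fun p => K ≤ p.1), ψ p.1 := by
    refine Finset.sum_bij (fun i _ => (i, m - i)) ?_ ?_ ?_ ?_
    · intro i hi
      rw [Finset.mem_Ico] at hi
      simp only [Finset.mem_filter, Finset.HasAntidiagonal.mem_antidiagonal]
      omega
    · intro i _ j _ hij
      exact (Prod.mk.inj hij).1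
    · rintro ⟨a, b⟩ hab
      simp only [Finset.mem_filter, Finset.HasAntidiagonal.mem_antidiagonal] at hab
      refine ⟨a, Finset.mem_Ico.mpr ⟨hab.2, by omega⟩, ?_⟩
      rw [Prod.mk.injEq]
      omega
    · intro i _
      rfl
  have h2 : ∑ k ∈ Ico K (m + 1), ψ k =
      ∑ p ∈ (antidiagonal m).filter (fun p => K ≤ p.2), ψ p.2 := by
    refine Finset.sum_bij (fun i _ => (m - i, i)) ?_ ?_ ?_ ?_
    · intro i hi
      rw [Finset.mem_Ico] at hi
      simp only [Finset.mem_filter, Finset.HasAntidiagonal.mem_antidiagonal]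
      omega
    · intro i _ j _ hij
      exact (Prod.mk.inj hij).2
    · rintro ⟨a, b⟩ hab
      simp only [Finset.mem_filter, Finset.HasAntidiagonal.mem_antidiagonal] at hab
      refine ⟨b, Finset.mem_Ico.mpr ⟨hab.2, by omega⟩, ?_⟩
      rw [Prod.mk.injEq]
      omega
    · intro i _
      rfl
  rw [two_mul]
  nth_rewrite 1 [h1]
  rw [h2]
  rw [Finset.sum_filter, Finset.sum_filter, Finset.sum_filter, ← Finset.sum_add_distrib]
  apply Finset.sum_le_sum
  intro p _
  have h3 := hψ p.1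
  have h4 := hψ p.2
  by_cases h5 : K ≤ p.1 ∧ K ≤ p.2
  · rw [if_pos h5, if_pos h5.1, if_pos h5.2]
    rcases le_total p.1 p.2 with h6 | h6
    · rw [min_eq_left h6]; linarith
    · rw [min_eq_right h6]; linarith
  · rw [if_neg h5]
    split_ifs <;> linarith

/-- Upper bound for the ratios. -/
theorem U_bound (ε : ℝ) (hε : 0 < ε) : ∃ n0 : ℕ, ∀ N : ℕ, 1 ≤ N → ∀ n : ℕ, n0 ≤ n →
    yy N n ≤ XX ((n : ℝ) / N) + ε := by
  obtain ⟨K, hK⟩ : ∃ K : ℕ, tl K ≤ ε / 3 := by
    have h := tl_tendsto.eventually (ge_mem_nhds (show (0 : ℝ) < ε / 3 by positivity))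
    exact h.exists
  obtain ⟨n1, hn1⟩ := exists_nat_gt (((1 + K) * (1 + ε / 3) + 3) / (ε / 3))
  refine ⟨n1 + 2 * K + 2, ?_⟩
  intro N hN n hn
  by_contra hcon
  push Not at hcon
  obtain ⟨m, rfl⟩ : ∃ m, n = m + 1 := ⟨n - 1, by omega⟩
  set X := XX (((m + 1 : ℕ) : ℝ) / N) with hX
  set y := yy N (m + 1) with hy
  set z := 1 / (N : ℝ) ^ 2 with hz
  have hNpos : (0 : ℝ) < N := by exact_mod_cast hN
  have hzpos : 0 < z := by positivity
  have hXpos : 0 < X := XX_pos _
  have hX1 : X ≤ 1 := XX_le_one _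
  have hXeq := XX_eq (((m + 1 : ℕ) : ℝ) / N)
  rw [← hX] at hXeq
  have hypos : 0 < y := yy_pos _ _
  have hrec := (nrec_qN N).hrec m
  rw [← hz] at hrec
  have hq := qN_pos N (m + 2)
  -- lower bounds
  have h1 : qN N (m + 1) = y * qN N (m + 2) := qN_succ N (m + 1)
  have hlow : ∀ i ≤ m, y ^ (i + 2) * qN N (m + 2) ≤ qN N (m - i) := by
    intro i hi
    have := pow_le_qN N (m - i) y hypos.le (i + 2) (by
      intro j _ hj
      exact yy_anti N hN (by omega))
    rwa [show m - i + (i + 2) = m + 2 by omega] at this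
  have h2 : y ^ 2 * qN N (m + 2) ≤ qN N m := hlow 0 (by omega)
  set M : ℝ := (m : ℝ) - 1 - K with hM
  have hMpos : 0 ≤ M := by
    rw [hM]
    have : ((n1 + 2 * K + 2 : ℕ) : ℝ) ≤ ((m + 1 : ℕ) : ℝ) := by exact_mod_cast hn
    push_cast at this
    have h3 : (0 : ℝ) ≤ n1 := Nat.cast_nonneg _
    have h4 : (0 : ℝ) ≤ K := Nat.cast_nonneg _
    linarith
  have h3 : 2 * ∑ i ∈ range K, (2 * (i : ℝ) + 1) * (2 * ((m - i : ℕ) : ℝ) + 1) *
      (qN N i * qN N (m - i)) ≤ ∑ p ∈ antidiagonal m,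
      (2 * (p.1 : ℝ) + 1) * (2 * (p.2 : ℝ) + 1) * (qN N p.1 * qN N p.2) := by
    refine anti_lower (fun i j => (2 * (i : ℝ) + 1) * (2 * (j : ℝ) + 1) * (qN N i * qN N j))
      ?_ ?_ K m (by omega)
    · intro i j
      have := qN_pos N i
      have := qN_pos N j
      positivity
    · intro i j
      ring
  have h4 : ∀ i ∈ range K, 2 * M * (ee i * y ^ (i + 2)) * qN N (m + 2) ≤
      (2 * (i : ℝ) + 1) * (2 * ((m - i : ℕ) : ℝ) + 1) * (qN N i * qN N (m - i)) := by
    intro i hi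
    rw [Finset.mem_range] at hi
    have h5 := hlow i (by omega)
    have h6 := (nrec_qN N).cc_le hzpos.le i
    have h7 : 2 * M ≤ 2 * ((m - i : ℕ) : ℝ) + 1 := by
      rw [Nat.cast_sub (by omega), hM]
      have : (i : ℝ) ≤ K := by exact_mod_cast hi.le
      linarith
    rw [ee_eq]
    have h8 := cc_pos i
    have h9 := qN_pos N i
    calc 2 * M * ((2 * (i : ℝ) + 1) * cc i * y ^ (i + 2)) * qN N (m + 2)
        = (2 * (i : ℝ) + 1) * (2 * M) * (cc i * (y ^ (i + 2) * qN N (m + 2))) := by ring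
      _ ≤ (2 * (i : ℝ) + 1) * (2 * ((m - i : ℕ) : ℝ) + 1) * (qN N i * qN N (m - i)) := by
          gcongr
  have h5 : 2 * M * (∑ i ∈ range K, ee i * y ^ (i + 2)) * qN N (m + 2) ≤
      ∑ i ∈ range K, (2 * (i : ℝ) + 1) * (2 * ((m - i : ℕ) : ℝ) + 1) *
      (qN N i * qN N (m - i)) := by
    rw [Finset.mul_sum, Finset.sum_mul]
    exact Finset.sum_le_sum h4
  have h6 : 2 * M / 3 * y * qN N (m + 2) ≤ (2 * (m : ℝ) + 3) / 3 * qN N (m + 1) := by
    rw [h1]
    have : 2 * M / 3 ≤ (2 * (m : ℝ) + 3) / 3 := by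
      rw [hM]
      have h4 : (0 : ℝ) ≤ K := Nat.cast_nonneg _
      linarith
    calc 2 * M / 3 * y * qN N (m + 2) = 2 * M / 3 * (y * qN N (m + 2)) := by ring
      _ ≤ _ := by gcongr
  have h7 : 4 * M * ((m : ℝ) + 1) ^ 2 * (z / 144) * y ^ 2 * qN N (m + 2) ≤
      (2 * (m : ℝ) + 1) * (m + 1) * (2 * m + 3) * (z / 144) * qN N m := by
    have h8 : 4 * M * ((m : ℝ) + 1) ^ 2 ≤ (2 * (m : ℝ) + 1) * (m + 1) * (2 * m + 3) := by
      have h9 : M ≤ (m : ℝ) - 1 := by
        rw [hM]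
        have h4 : (0 : ℝ) ≤ K := Nat.cast_nonneg _
        linarith
      have h10 : (0 : ℝ) ≤ m := Nat.cast_nonneg _
      calc 4 * M * ((m : ℝ) + 1) ^ 2 ≤ 4 * ((m : ℝ) - 1) * ((m : ℝ) + 1) ^ 2 := by gcongr
        _ ≤ (2 * (m : ℝ) + 1) * (m + 1) * (2 * m + 3) := by nlinarith
    calc 4 * M * ((m : ℝ) + 1) ^ 2 * (z / 144) * y ^ 2 * qN N (m + 2)
        = (4 * M * ((m : ℝ) + 1) ^ 2) * (z / 144) * (y ^ 2 * qN N (m + 2)) := by ring
      _ ≤ _ := by gcongr
  -- the recurrence gives the main inequality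
  have h8 : M * (GK K y + (((m + 1 : ℕ) : ℝ) / N) ^ 2 * y ^ 2 / 36) ≤ (m : ℝ) + 3 := by
    have h9 : M * (GK K y + (((m + 1 : ℕ) : ℝ) / N) ^ 2 * y ^ 2 / 36) * qN N (m + 2) ≤
        ((m : ℝ) + 3) * qN N (m + 2) := by
      rw [hrec]
      have h10 : M * (GK K y + (((m + 1 : ℕ) : ℝ) / N) ^ 2 * y ^ 2 / 36) * qN N (m + 2) =
          2 * M / 3 * y * qN N (m + 2) +
          4 * M * ((m : ℝ) + 1) ^ 2 * (z / 144) * y ^ 2 * qN N (m + 2) +
          1 / 24 * (2 * M * (∑ i ∈ range K, ee i * y ^ (i + 2)) * qN N (m + 2)) := by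
        rw [GK, hz]
        push_cast
        field_simp
        ring
      rw [h10]
      linarith
    exact le_of_mul_le_mul_right h9 hq
  have h9 : 1 + ε / 3 ≤ GK K y + (((m + 1 : ℕ) : ℝ) / N) ^ 2 * y ^ 2 / 36 := by
    have h10 := GK_slope K hXpos.le (show X ≤ y by linarith)
    have h11 := GG_le_GK K hXpos.le hX1
    have h12 : (((m + 1 : ℕ) : ℝ) / N) ^ 2 * X ^ 2 ≤ (((m + 1 : ℕ) : ℝ) / N) ^ 2 * y ^ 2 := by
      have : X ^ 2 ≤ y ^ 2 := by
        have : X ≤ y := by linarith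
        gcongr
      gcongr
    linarith
  have h10 : M * (1 + ε / 3) ≤ (m : ℝ) + 3 := (mul_le_mul_of_nonneg_left h9 hMpos).trans h8
  rw [div_lt_iff₀ (by positivity)] at hn1
  have h11 : (n1 : ℝ) ≤ m := by exact_mod_cast (by omega : n1 ≤ m)
  have h12 : (n1 : ℝ) * (ε / 3) ≤ m * (ε / 3) := by gcongr
  rw [hM] at h10
  nlinarith

end Pool.Agent.H48.Quad
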