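import Pool.Agent.H48.Quad.B2a

set_option autoImplicit false

/-!
# Part B: exponential decay of the convolution terms
-/

namespace Pool.Agent.H48.Quad

open Finset Filter Topology Pool.Agent.H63.Quad

theorem prod_mono (N : ℕ) (hN : 1 ≤ N) (m i k : ℕ) (h : 2 * (i + k) ≤ m) :
    qN N (i + k) * qN N (m - (i + k)) ≤ qN N i * qN N (m - i) := by
  induction k with
  | zero => simp
  | succ k ih =>
    refine le_trans ?_ (ih (by omega))
    have h1 := qN_succ N (i + k)
    have h2 := qN_succ N (m - (i + (k + 1)))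
    rw [show m - (i + (k + 1)) + 1 = m - (i + k) by omega] at h2
    rw [h2, h1, ← add_assoc]
    have h3 : yy N (m - (i + (k + 1))) ≤ yy N (i + k) := yy_anti N hN (by omega)
    rw [← add_assoc] at h3
    have h4 := qN_pos N (i + k + 1)
    have h5 := qN_pos N (m - (i + k))
    calc qN N (i + k + 1) * (yy N (m - (i + k + 1)) * qN N (m - (i + k)))
        = yy N (m - (i + k + 1)) * (qN N (i + k + 1) * qN N (m - (i + k))) := by ring
      _ ≤ yy N (i + k) * (qN N (i + k + 1) * qN N (m - (i + k))) := by gcongr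
      _ = yy N (i + k) * qN N (i + k + 1) * qN N (m - (i + k)) := by ring

/-- Exponential decay of the terms of the convolution. -/
theorem ED' (u1 u2 : ℝ) (hu1 : 0 < u1) : ∃ C κ : ℝ, 0 < C ∧ 0 < κ ∧ ∀ᶠ N : ℕ in atTop,
    ∀ m i : ℕ, u1 * N ≤ m → (m : ℝ) ≤ u2 * N → 2 * i ≤ m →
      qN N i * qN N (m - i) ≤ C * Real.exp (-(κ * i)) * qN N m := by
  set X1 := XX (u1 / 4) with hX1
  have hX1lt : X1 < 1 := XX_lt_one (by positivity)
  have hX1pos : 0 < X1 := XX_pos _
  set y := (1 + X1) / 2 with hy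
  have hy0 : 0 < y := by positivity
  have hy1 : y < 1 := by rw [hy]; linarith
  set lam := -Real.log y / 2 with hlam
  have hlampos : 0 < lam := by
    have := Real.log_neg hy0 hy1
    rw [hlam]; linarith
  have hyexp : y = Real.exp (-(2 * lam)) := by
    rw [hlam, show -(2 * (-Real.log y / 2)) = Real.log y by ring, Real.exp_log hy0]
  set η := Real.sqrt lam with hη
  have hηpos : 0 < η := Real.sqrt_pos.mpr hlampos
  have hηsq : η ^ 2 = lam := Real.sq_sqrt hlampos.le
  set w := max u2 u1 with hw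
  have hwpos : 0 < w := lt_of_lt_of_le hu1 (le_max_right _ _)
  set κ := lam * min 1 (2 * η / w) with hκ
  have hκpos : 0 < κ := by positivity
  obtain ⟨n0, hn0⟩ := U_bound ((1 - X1) / 2) (by linarith)
  refine ⟨Real.exp lam, κ, Real.exp_pos _, hκpos, ?_⟩
  have e1 : ∀ᶠ N : ℕ in atTop, 2 / u1 ≤ (N : ℝ) :=
    tendsto_natCast_atTop_atTop.eventually (eventually_ge_atTop (2 / u1))
  have e2 : ∀ᶠ N : ℕ in atTop, 4 * n0 / u1 ≤ (N : ℝ) :=
    tendsto_natCast_atTop_atTop.eventually (eventually_ge_atTop (4 * n0 / u1))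
  filter_upwards [e1, e2, eventually_ge_atTop 1] with N hN1 hN2 hN m i hm1 hm2 him
  have hNpos : (0 : ℝ) < N := by exact_mod_cast hN
  rw [div_le_iff₀ hu1] at hN1 hN2
  -- the index `m / 2`
  have hhalf : ((m : ℝ) - 1) / 2 ≤ ((m / 2 : ℕ) : ℝ) := by
    have : m ≤ 2 * (m / 2) + 1 := by omega
    have h : (m : ℝ) ≤ 2 * ((m / 2 : ℕ) : ℝ) + 1 := by exact_mod_cast this
    linarith
  have hhalf2 : u1 / 4 * N ≤ ((m / 2 : ℕ) : ℝ) := by linarith
  have hhalf3 : n0 ≤ m / 2 := by
    have : (n0 : ℝ) ≤ ((m / 2 : ℕ) : ℝ) := by linarith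
    exact_mod_cast this
  have hyy : yy N (m / 2) ≤ y := by
    refine (hn0 N hN (m / 2) hhalf3).trans ?_
    have h1 : XX (((m / 2 : ℕ) : ℝ) / N) ≤ X1 := by
      apply XX_anti (by positivity)
      rw [le_div_iff₀ hNpos]
      exact hhalf2
    rw [hy]; linarith
  -- small indices
  have hsmall : ∀ k : ℕ, 2 * k ≤ m → (k : ℝ) ≤ η * N →
      qN N k * qN N (m - k) ≤ Real.exp (-(lam * k)) * qN N m := by
    intro k hk hkη
    have h1 : qN N (m - k) ≤ y ^ k * qN N m := by
      have := qN_le_pow N (m - k) y k (by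
        intro j hj _
        exact (yy_anti N hN (by omega)).trans hyy)
      rwa [show m - k + k = m by omega] at this
    have h2 : qN N k ≤ Real.exp (lam * k) := by
      refine ((nrec_qN N).le_exp (by positivity) k).trans ?_
      have h3 : Real.exp ((k : ℝ) ^ 3 * (1 / (N : ℝ) ^ 2)) ≤ Real.exp (lam * k) := by
        apply Real.exp_le_exp.mpr
        rw [← hηsq]
        have h4 : (k : ℝ) / N ≤ η := by rwa [div_le_iff₀ hNpos]
        have h5 : ((k : ℝ) / N) ^ 2 ≤ η ^ 2 := by gcongr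
        calc (k : ℝ) ^ 3 * (1 / (N : ℝ) ^ 2) = ((k : ℝ) / N) ^ 2 * k := by
              field_simp
          _ ≤ η ^ 2 * k := by gcongr
      calc cc k * Real.exp ((k : ℝ) ^ 3 * (1 / (N : ℝ) ^ 2)) ≤ 1 * Real.exp (lam * k) :=
            mul_le_mul (cc_le_one k) h3 (Real.exp_pos _).le (by norm_num)
        _ = Real.exp (lam * k) := one_mul _
    have h3 : Real.exp (lam * k) * y ^ k = Real.exp (-(lam * k)) := by
      rw [hyexp, ← Real.exp_nat_mul, ← Real.exp_add]
      congr 1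
      ring
    have h4 := qN_pos N m
    calc qN N k * qN N (m - k) ≤ Real.exp (lam * k) * (y ^ k * qN N m) :=
          mul_le_mul h2 h1 (qN_pos _ _).le (Real.exp_pos _).le
      _ = (Real.exp (lam * k) * y ^ k) * qN N m := by ring
      _ = _ := by rw [h3]
  have hqm := qN_pos N m
  rcases le_or_gt (i : ℝ) (η * N) with h | h
  · refine (hsmall i him h).trans ?_
    apply mul_le_mul_of_nonneg_right _ hqm.le
    have h1 : Real.exp (-(lam * i)) ≤ Real.exp (-(κ * i)) := by
      apply Real.exp_le_exp.mpr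
      have h2 : κ ≤ lam := by
        rw [hκ]
        calc lam * min 1 (2 * η / w) ≤ lam * 1 := by
              gcongr
              exact min_le_left _ _
          _ = lam := mul_one _
      have : κ * i ≤ lam * i := by gcongr
      linarith
    have h2 : 1 ≤ Real.exp lam := Real.one_le_exp hlampos.le
    have h3 := Real.exp_pos (-(κ * i))
    nlinarith
  · -- compare with the index `⌊η N⌋`
    set i0 := ⌊η * N⌋₊ with hi0
    have hi0le : (i0 : ℝ) ≤ η * N := Nat.floor_le (by positivity)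
    have hi0gt : η * N < i0 + 1 := Nat.lt_floor_add_one _
    have hi0i : i0 ≤ i := by
      have : (i0 : ℝ) ≤ i := by linarith
      exact_mod_cast this
    have h1 := prod_mono N hN m i0 (i - i0) (by omega)
    rw [show i0 + (i - i0) = i by omega] at h1
    refine h1.trans ((hsmall i0 (by omega) hi0le).trans ?_)
    apply mul_le_mul_of_nonneg_right _ hqm.le
    rw [← Real.exp_add]
    apply Real.exp_le_exp.mpr
    have h2 : (i : ℝ) ≤ w * N / 2 := by
      have h3 : (2 * (i : ℝ)) ≤ m := by exact_mod_cast him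
      have h4 : (m : ℝ) ≤ w * N := hm2.trans (by gcongr; exact le_max_left _ _)
      linarith
    have h3 : κ * i ≤ lam * (η * N) := by
      calc κ * i ≤ κ * (w * N / 2) := by gcongr
        _ ≤ lam * (2 * η / w) * (w * N / 2) := by
            gcongr
            rw [hκ]
            gcongr
            exact min_le_right _ _
        _ = lam * (η * N) := by field_simp
    have h4 : lam * (η * N) ≤ lam * (i0 + 1) := by gcongr
    linarith

/-- The weights `(2k+1) e^{-κ k}`. -/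
noncomputable def psi (κ : ℝ) (k : ℕ) : ℝ := (2 * (k : ℝ) + 1) * Real.exp (-(κ * k))

theorem psi_nonneg (κ : ℝ) (k : ℕ) : 0 ≤ psi κ k := by
  rw [psi]; positivity

theorem summable_psi (κ : ℝ) (hκ : 0 < κ) : Summable (psi κ) := by
  have h1 := (Real.summable_pow_mul_exp_neg_nat_mul 1 hκ).mul_left 2
  have h2 := Real.summable_pow_mul_exp_neg_nat_mul 0 hκ
  refine (h1.add h2).congr fun k => ?_
  rw [psi, show -κ * (k : ℝ) = -(κ * k) by ring]
  ring

/-- The tail of the weights. -/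
noncomputable def tpsi (κ : ℝ) (K : ℕ) : ℝ := ∑' k, psi κ (k + K)

theorem tpsi_tendsto (κ : ℝ) : Tendsto (tpsi κ) atTop (𝓝 0) :=
  tendsto_sum_nat_add (psi κ)

theorem sum_Ico_psi (κ : ℝ) (hκ : 0 < κ) (K m : ℕ) : ∑ k ∈ Ico K m, psi κ k ≤ tpsi κ K := by
  rw [Finset.sum_Ico_eq_sum_range, tpsi]
  have h : ∀ k, psi κ (K + k) = psi κ (k + K) := fun k => by rw [add_comm]
  simp only [h]
  exact ((summable_nat_add_iff K).mpr (summable_psi κ hκ)).sum_le_tsum _
    (fun k _ => psi_nonneg κ _)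

/-- Lower bound for the ratios. -/
theorem L_bound (u1 u2 ε : ℝ) (hu1 : 0 < u1) (hε : 0 < ε) : ∀ᶠ N : ℕ in atTop,
    ∀ n : ℕ, u1 * N ≤ n → (n : ℝ) ≤ u2 * N → XX ((n : ℝ) / N) - ε ≤ yy N n := by
  set w := max u2 u1 with hw
  have hwpos : 0 < w := lt_of_lt_of_le hu1 (le_max_right _ _)
  obtain ⟨C, κ, hC, hκ, hED⟩ := ED' u1 (w + 1) hu1
  obtain ⟨K, hK⟩ : ∃ K : ℕ, tpsi κ K ≤ 2 * ε / C := by
    have h := (tpsi_tendsto κ).eventually (ge_mem_nhds (show (0 : ℝ) < 2 * ε / C by positivity))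
    exact h.exists
  rw [le_div_iff₀ hC] at hK
  set δ := min 1 (6 * ε / (2 * w + 1)) with hδ
  have hδpos : 0 < δ := by positivity
  have hδ1 : δ ≤ 1 := min_le_left _ _
  have hδ2 : δ * (2 * w + 1) ≤ 6 * ε := by
    have : δ ≤ 6 * ε / (2 * w + 1) := min_le_right _ _
    rwa [le_div_iff₀ (by positivity)] at this
  have e1 : ∀ᶠ N : ℕ in atTop, ((K : ℝ) + 2) / δ ≤ (N : ℝ) :=
    tendsto_natCast_atTop_atTop.eventually (eventually_ge_atTop _)
  have e2 : ∀ᶠ N : ℕ in atTop, Real.exp ((K : ℝ) ^ 3 * (1 / (N : ℝ) ^ 2)) < 1 + ε / 6 := by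
    have h1 : Tendsto (fun N : ℕ => (K : ℝ) ^ 3 * (1 / (N : ℝ) ^ 2)) atTop (𝓝 ((K : ℝ) ^ 3 * 0)) := by
      apply Tendsto.const_mul
      have h2 : Tendsto (fun N : ℕ => (N : ℝ) ^ 2) atTop atTop :=
        (tendsto_pow_atTop (by norm_num)).comp tendsto_natCast_atTop_atTop
      exact tendsto_const_nhds.div_atTop h2
    rw [mul_zero] at h1
    have h2 := (Real.continuous_exp.tendsto 0).comp h1
    rw [Real.exp_zero] at h2
    exact h2.eventually (gt_mem_nhds (by linarith))
  filter_upwards [hED, e1, e2, eventually_ge_atTop 1] with N hED hN1 hN2 hN n hn1 hn2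
  have hNpos : (0 : ℝ) < N := by exact_mod_cast hN
  rw [div_le_iff₀ hδpos] at hN1
  by_contra hcon
  push Not at hcon
  set X := XX ((n : ℝ) / N) with hX
  set y := yy N n with hy
  set z := 1 / (N : ℝ) ^ 2 with hz
  have hzpos : 0 < z := by positivity
  have hXpos : 0 < X := XX_pos _
  have hX1 : X ≤ 1 := XX_le_one _
  have hXeq := XX_eq ((n : ℝ) / N)
  rw [← hX] at hXeq
  have hypos : 0 < y := yy_pos _ _
  have hy1 : y ≤ 1 := by linarith
  -- the shifted index
  set d := ⌊δ * N⌋₊ with hd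
  have hdle : (d : ℝ) ≤ δ * N := Nat.floor_le (by positivity)
  have hdgt : δ * N < d + 1 := Nat.lt_floor_add_one _
  have hdK : K + 1 ≤ d := by
    have : (K : ℝ) + 1 < d + 0 := by linarith
    have h2 : ((K + 1 : ℕ) : ℝ) < (d : ℝ) := by push_cast; linarith
    have h3 : K + 1 < d := by exact_mod_cast h2
    exact h3.le
  obtain ⟨m, hm⟩ : ∃ m, m + 1 = n + d := ⟨n + d - 1, by omega⟩
  have hmn : n ≤ m := by omega
  have hmR : (m : ℝ) + 1 = n + d := by exact_mod_cast hm
  have hm1 : u1 * N ≤ m := hn1.trans (by exact_mod_cast hmn)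
  have hm2 : (m : ℝ) ≤ (w + 1) * N := by
    have h3 : (n : ℝ) ≤ w * N := hn2.trans (by gcongr; exact le_max_left _ _)
    have h4 : δ * N ≤ 1 * N := by gcongr
    linarith
  have hrec := (nrec_qN N).hrec m
  rw [← hz] at hrec
  have hq := qN_pos N (m + 2)
  have hyj : ∀ j, n ≤ j → yy N j ≤ y := fun j hj => yy_anti N hN hj
  have hup : ∀ i, i + n ≤ m → qN N (m - i) ≤ y ^ (i + 2) * qN N (m + 2) := by
    intro i hi
    have := qN_le_pow N (m - i) y (i + 2) (by
      intro j hj _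
      exact hyj j (by omega))
    rwa [show m - i + (i + 2) = m + 2 by omega] at this
  have h1 : qN N (m + 1) ≤ y * qN N (m + 2) := by
    rw [qN_succ N (m + 1)]
    exact mul_le_mul_of_nonneg_right (hyj _ (by omega)) hq.le
  have h2 : qN N m ≤ y ^ 2 * qN N (m + 2) := hup 0 (by omega)
  have h2' : qN N m ≤ qN N (m + 2) := by
    have h3 : y ^ 2 ≤ 1 := pow_le_one₀ hypos.le hy1
    calc qN N m ≤ y ^ 2 * qN N (m + 2) := h2
      _ ≤ 1 * qN N (m + 2) := by gcongr
      _ = _ := one_mul _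
  set E := Real.exp ((K : ℝ) ^ 3 * z) with hE
  have hE1 : 1 ≤ E := Real.one_le_exp (by positivity)
  have h3 : ∑ p ∈ antidiagonal m,
      (2 * (p.1 : ℝ) + 1) * (2 * (p.2 : ℝ) + 1) * (qN N p.1 * qN N p.2) ≤
      2 * ∑ i ∈ range K, (2 * (i : ℝ) + 1) * (2 * ((m - i : ℕ) : ℝ) + 1) *
      (qN N i * qN N (m - i)) + ∑ p ∈ (antidiagonal m).filter (fun p => K ≤ p.1 ∧ K ≤ p.2),
      (2 * (p.1 : ℝ) + 1) * (2 * (p.2 : ℝ) + 1) * (qN N p.1 * qN N p.2) := by
    refine anti_upper (fun i j => (2 * (i : ℝ) + 1) * (2 * (j : ℝ) + 1) * (qN N i * qN N j))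
      ?_ ?_ K m (by omega)
    · intro i j
      have := qN_pos N i
      have := qN_pos N j
      positivity
    · intro i j
      ring
  -- the main terms
  have h4 : ∀ i ∈ range K, (2 * (i : ℝ) + 1) * (2 * ((m - i : ℕ) : ℝ) + 1) *
      (qN N i * qN N (m - i)) ≤ 2 * ((m : ℝ) + 3) * E * (ee i * y ^ (i + 2)) * qN N (m + 2) := by
    intro i hi
    rw [Finset.mem_range] at hi
    have h5 := hup i (by omega)
    have h6 : qN N i ≤ cc i * E := by
      refine ((nrec_qN N).le_exp hzpos.le i).trans ?_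
      have h7 := cc_pos i
      apply mul_le_mul_of_nonneg_left _ h7.le
      apply Real.exp_le_exp.mpr
      have : (i : ℝ) ≤ K := by exact_mod_cast hi.le
      gcongr
    have h7 : 2 * ((m - i : ℕ) : ℝ) + 1 ≤ 2 * ((m : ℝ) + 3) := by
      rw [Nat.cast_sub (by omega)]
      have : (0 : ℝ) ≤ i := Nat.cast_nonneg i
      linarith
    rw [ee_eq]
    have h8 := cc_pos i
    have h9 := qN_pos N i
    have h10 := qN_pos N (m - i)
    calc (2 * (i : ℝ) + 1) * (2 * ((m - i : ℕ) : ℝ) + 1) * (qN N i * qN N (m - i))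
        ≤ (2 * (i : ℝ) + 1) * (2 * ((m : ℝ) + 3)) * (cc i * E * (y ^ (i + 2) * qN N (m + 2))) := by
          gcongr
      _ = 2 * ((m : ℝ) + 3) * E * ((2 * (i : ℝ) + 1) * cc i * y ^ (i + 2)) * qN N (m + 2) := by
          ring
  have h5 : ∑ i ∈ range K, (2 * (i : ℝ) + 1) * (2 * ((m - i : ℕ) : ℝ) + 1) *
      (qN N i * qN N (m - i)) ≤
      2 * ((m : ℝ) + 3) * E * (∑ i ∈ range K, ee i * y ^ (i + 2)) * qN N (m + 2) := by
    rw [Finset.mul_sum, Finset.sum_mul]
    exact Finset.sum_le_sum h4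
  -- the tail
  have h6 : ∑ p ∈ (antidiagonal m).filter (fun p => K ≤ p.1 ∧ K ≤ p.2),
      (2 * (p.1 : ℝ) + 1) * (2 * (p.2 : ℝ) + 1) * (qN N p.1 * qN N p.2) ≤
      (2 * ((m : ℝ) + 3)) * qN N (m + 2) * C * (2 * tpsi κ K) := by
    calc _ ≤ ∑ p ∈ (antidiagonal m).filter (fun p => K ≤ p.1 ∧ K ≤ p.2),
        (2 * ((m : ℝ) + 3)) * qN N (m + 2) * C * psi κ (min p.1 p.2) := by
          apply Finset.sum_le_sum
          rintro ⟨a, b⟩ hp
          simp only [Finset.mem_filter, Finset.HasAntidiagonal.mem_antidiagonal] at hp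
          dsimp only
          have key : ∀ a b : ℕ, a ≤ b → a + b = m →
              (2 * (a : ℝ) + 1) * (2 * (b : ℝ) + 1) * (qN N a * qN N b) ≤
              (2 * ((m : ℝ) + 3)) * qN N (m + 2) * C * psi κ a := by
            intro a b hab hm'
            have h7 := hED m a hm1 hm2 (by omega)
            rw [show m - a = b by omega] at h7
            have h8 : 2 * (b : ℝ) + 1 ≤ 2 * ((m : ℝ) + 3) := by
              have : (b : ℝ) ≤ m := by exact_mod_cast (by omega : b ≤ m)
              linarith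
            have h9 := qN_pos N m
            have h9a := qN_pos N a
            have h9b := qN_pos N b
            calc (2 * (a : ℝ) + 1) * (2 * (b : ℝ) + 1) * (qN N a * qN N b)
                ≤ (2 * (a : ℝ) + 1) * (2 * ((m : ℝ) + 3)) *
                  (C * Real.exp (-(κ * a)) * qN N m) := by
                  gcongr
              _ ≤ (2 * (a : ℝ) + 1) * (2 * ((m : ℝ) + 3)) *
                  (C * Real.exp (-(κ * a)) * qN N (m + 2)) := by
                  gcongr
              _ = _ := by rw [psi]; ring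
          rcases le_total a b with hab | hab
          · rw [min_eq_left hab]
            exact key a b hab hp.1
          · rw [min_eq_right hab]
            have := key b a hab (by omega)
            calc _ = (2 * (b : ℝ) + 1) * (2 * (a : ℝ) + 1) * (qN N b * qN N a) := by ring
              _ ≤ _ := this
      _ = (2 * ((m : ℝ) + 3)) * qN N (m + 2) * C *
          ∑ p ∈ (antidiagonal m).filter (fun p => K ≤ p.1 ∧ K ≤ p.2), psi κ (min p.1 p.2) := by
          rw [Finset.mul_sum]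
      _ ≤ (2 * ((m : ℝ) + 3)) * qN N (m + 2) * C * (2 * tpsi κ K) := by
          apply mul_le_mul_of_nonneg_left _ (by positivity)
          refine (anti_min (psi κ) (psi_nonneg κ) K m).trans ?_
          have := sum_Ico_psi κ hκ K (m + 1)
          linarith
  -- the main inequality
  have h7 : (m : ℝ) + 3 ≤ ((m : ℝ) + 3) * (E * GK K y + ((n : ℝ) / N + δ) ^ 2 * y ^ 2 / 36 +
      C / 12 * tpsi κ K) := by
    have h8 : ((m : ℝ) + 3) * qN N (m + 2) ≤
        (((m : ℝ) + 3) * (E * GK K y + ((n : ℝ) / N + δ) ^ 2 * y ^ 2 / 36 +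
      C / 12 * tpsi κ K)) * qN N (m + 2) := by
      rw [hrec]
      have h9 : (2 * (m : ℝ) + 3) / 3 * qN N (m + 1) ≤
          ((m : ℝ) + 3) * (E * (2 / 3 * y)) * qN N (m + 2) := by
        calc (2 * (m : ℝ) + 3) / 3 * qN N (m + 1) ≤ (2 * (m : ℝ) + 3) / 3 * (y * qN N (m + 2)) := by
              gcongr
          _ ≤ (((m : ℝ) + 3) * (E * (2 / 3))) * (y * qN N (m + 2)) := by
              gcongr
              have h10 : (0 : ℝ) ≤ m := Nat.cast_nonneg m
              nlinarith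
          _ = _ := by ring
      have h10 : (2 * (m : ℝ) + 1) * (m + 1) * (2 * m + 3) * (z / 144) * qN N m ≤
          ((m : ℝ) + 3) * (((n : ℝ) / N + δ) ^ 2 * y ^ 2 / 36) * qN N (m + 2) := by
        have h11 : (2 * (m : ℝ) + 1) * (m + 1) * (2 * m + 3) ≤ 4 * ((m : ℝ) + 1) ^ 2 * (m + 3) := by
          have h10 : (0 : ℝ) ≤ m := Nat.cast_nonneg m
          nlinarith
        have h12 : ((m : ℝ) + 1) / N ≤ (n : ℝ) / N + δ := by
          rw [hmR, add_div]
          have : (d : ℝ) / N ≤ δ := by rwa [div_le_iff₀ hNpos]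
          linarith
        calc (2 * (m : ℝ) + 1) * (m + 1) * (2 * m + 3) * (z / 144) * qN N m
            ≤ (4 * ((m : ℝ) + 1) ^ 2 * (m + 3)) * (z / 144) * (y ^ 2 * qN N (m + 2)) := by
              have := qN_pos N m
              gcongr
          _ = ((m : ℝ) + 3) * ((((m : ℝ) + 1) / N) ^ 2 * y ^ 2 / 36) * qN N (m + 2) := by
              rw [hz]
              field_simp
              ring
          _ ≤ _ := by gcongr
      have h11 : 1 / 48 * ∑ p ∈ antidiagonal m,
          (2 * (p.1 : ℝ) + 1) * (2 * (p.2 : ℝ) + 1) * (qN N p.1 * qN N p.2) ≤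
          ((m : ℝ) + 3) * (E * (1 / 12 * ∑ i ∈ range K, ee i * y ^ (i + 2)) +
          C / 12 * tpsi κ K) * qN N (m + 2) := by
        calc 1 / 48 * ∑ p ∈ antidiagonal m,
          (2 * (p.1 : ℝ) + 1) * (2 * (p.2 : ℝ) + 1) * (qN N p.1 * qN N p.2)
            ≤ 1 / 48 * (2 * (2 * ((m : ℝ) + 3) * E * (∑ i ∈ range K, ee i * y ^ (i + 2)) *
              qN N (m + 2)) + (2 * ((m : ℝ) + 3)) * qN N (m + 2) * C * (2 * tpsi κ K)) := by
              gcongr
              linarith
          _ = _ := by ring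
      rw [GK]
      linarith
    exact le_of_mul_le_mul_right h8 hq
  have h8 : 1 ≤ E * GK K y + ((n : ℝ) / N + δ) ^ 2 * y ^ 2 / 36 + C / 12 * tpsi κ K := by
    have h9 : (0 : ℝ) < (m : ℝ) + 3 := by positivity
    have h10 : ((m : ℝ) + 3) * 1 ≤ ((m : ℝ) + 3) *
        (E * GK K y + ((n : ℝ) / N + δ) ^ 2 * y ^ 2 / 36 + C / 12 * tpsi κ K) := by
      rw [mul_one]; exact h7
    exact le_of_mul_le_mul_left h10 h9
  -- estimates
  have hGK : GK K y ≤ GG y := GK_le_GG K hypos.le hy1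
  have hslope := GG_slope hypos.le (show y ≤ X by linarith) hX1
  have hGGy1 : GG y ≤ 1 := by
    have := GG_slope hypos.le hy1 le_rfl
    rw [GG_one] at this
    linarith
  have hGK0 : 0 ≤ GK K y := by
    rw [GK]
    have : 0 ≤ ∑ i ∈ range K, ee i * y ^ (i + 2) := by
      apply Finset.sum_nonneg
      intro i _
      have := ee_pos i
      positivity
    positivity
  have h9 : E * GK K y ≤ GG X - 2 / 3 * ε + ε / 6 := by
    have h10 : E * GK K y ≤ GK K y + ε / 6 := by
      have h11 : E - 1 ≤ ε / 6 := by linarith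
      have h12 : (E - 1) * GK K y ≤ ε / 6 * 1 :=
        mul_le_mul h11 (hGK.trans hGGy1) hGK0 (by positivity)
      linarith
    linarith
  have h10 : ((n : ℝ) / N + δ) ^ 2 * y ^ 2 / 36 ≤ ((n : ℝ) / N) ^ 2 * X ^ 2 / 36 + ε / 6 := by
    have hτ : (n : ℝ) / N ≤ w := by
      rw [div_le_iff₀ hNpos]
      exact hn2.trans (by gcongr; exact le_max_left _ _)
    have hτ0 : 0 ≤ (n : ℝ) / N := by positivity
    have h11 : ((n : ℝ) / N + δ) ^ 2 * y ^ 2 =
        ((n : ℝ) / N) ^ 2 * y ^ 2 + (δ * (2 * ((n : ℝ) / N) + δ)) * y ^ 2 := by ring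
    have h12 : (δ * (2 * ((n : ℝ) / N) + δ)) * y ^ 2 ≤ 6 * ε := by
      have h13 : δ * (2 * ((n : ℝ) / N) + δ) ≤ δ * (2 * w + 1) := by gcongr
      have h14 : y ^ 2 ≤ 1 := pow_le_one₀ hypos.le hy1
      calc (δ * (2 * ((n : ℝ) / N) + δ)) * y ^ 2 ≤ (δ * (2 * w + 1)) * 1 := by gcongr
        _ ≤ 6 * ε := by rw [mul_one]; exact hδ2
    have h13 : ((n : ℝ) / N) ^ 2 * y ^ 2 ≤ ((n : ℝ) / N) ^ 2 * X ^ 2 := by
      have : y ≤ X := by linarith
      gcongr
    linarith
  have h11 : C / 12 * tpsi κ K ≤ ε / 6 := by linarith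
  linarith

end Pool.Agent.H48.Quad
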