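import Pool.Agent.H63.Quad.Defs

set_option autoImplicit false

/-!
# Basic facts on cycles, colourings and transitivity
-/

namespace Pool.Agent.H48.Quad

open Finset Pool.Agent.H63.Quad

variable {X : Type} [Fintype X]

theorem mp_eq_card [DecidableEq X] (π : Equiv.Perm X) (d : X) :
    Function.minimalPeriod π d = Nat.card {e // Equiv.Perm.SameCycle π d e} := by
  classical
  have h := MulAction.minimalPeriod_eq_card (a := π) (b := d)
  have h1 : Function.minimalPeriod π d = Function.minimalPeriod (π • ·) d := rfl
  rw [h1, h, ← Nat.card_eq_fintype_card]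
  apply Nat.card_congr
  refine Equiv.subtypeEquivRight ?_
  intro e
  constructor
  · rintro ⟨⟨g, hg⟩, rfl⟩
    obtain ⟨i, rfl⟩ := Subgroup.mem_zpowers_iff.mp hg
    exact ⟨i, rfl⟩
  · rintro ⟨i, rfl⟩
    exact ⟨⟨π ^ i, Subgroup.mem_zpowers_iff.mpr ⟨i, rfl⟩⟩, rfl⟩

theorem mp_pos (π : Equiv.Perm X) (d : X) : 0 < Function.minimalPeriod π d := by
  classical
  rw [mp_eq_card]
  have : Nonempty {e // Equiv.Perm.SameCycle π d e} := ⟨⟨d, Equiv.Perm.SameCycle.refl _ _⟩⟩
  exact Nat.card_pos

/-- The number of cycles as a sum of reciprocals of cycle lengths. -/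
theorem sum_recip (π : Equiv.Perm X) :
    ∑ d, (1 : ℚ) / (Function.minimalPeriod π d : ℚ) = (orb π : ℚ) := by
  classical
  have : Fintype (Quotient (Equiv.Perm.SameCycle.setoid π)) := Fintype.ofFinite _
  rw [orb, Nat.card_eq_fintype_card]
  have h1 : ∑ d, (1 : ℚ) / (Function.minimalPeriod π d : ℚ) =
      ∑ q : Quotient (Equiv.Perm.SameCycle.setoid π),
        ∑ d ∈ univ.filter (fun d => (Quotient.mk (Equiv.Perm.SameCycle.setoid π) d) = q),
          (1 : ℚ) / (Function.minimalPeriod π d : ℚ) := by
    rw [Finset.sum_fiberwise]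
  rw [h1]
  have h2 : ∀ q : Quotient (Equiv.Perm.SameCycle.setoid π),
      ∑ d ∈ univ.filter (fun d => (Quotient.mk (Equiv.Perm.SameCycle.setoid π) d) = q),
          (1 : ℚ) / (Function.minimalPeriod π d : ℚ) = 1 := by
    intro q
    induction q using Quotient.inductionOn with
    | h x =>
      have h3 : ∀ d ∈ univ.filter
          (fun d => (Quotient.mk (Equiv.Perm.SameCycle.setoid π) d) =
            (Quotient.mk (Equiv.Perm.SameCycle.setoid π) x)),
          (1 : ℚ) / (Function.minimalPeriod π d : ℚ) = 1 / (Function.minimalPeriod π x : ℚ) := by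
        intro d hd
        rw [Finset.mem_filter] at hd
        have h4 : Equiv.Perm.SameCycle π d x := Quotient.exact hd.2
        have h5 : Function.minimalPeriod π d = Function.minimalPeriod π x := by
          rw [mp_eq_card, mp_eq_card]
          apply Nat.card_congr
          refine Equiv.subtypeEquivRight ?_
          intro e
          exact ⟨fun h => h4.symm.trans h, fun h => h4.trans h⟩
        rw [h5]
      rw [Finset.sum_congr rfl h3, Finset.sum_const, nsmul_eq_mul]
      have h6 : (univ.filter
          (fun d => (Quotient.mk (Equiv.Perm.SameCycle.setoid π) d) =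
            (Quotient.mk (Equiv.Perm.SameCycle.setoid π) x))).card =
            Function.minimalPeriod π x := by
        rw [mp_eq_card, Nat.card_eq_fintype_card, Fintype.card_subtype]
        congr 1
        ext d
        simp only [Finset.mem_filter, Finset.mem_univ, true_and]
        constructor
        · intro h
          have h4 : Equiv.Perm.SameCycle π d x := Quotient.exact h
          exact h4.symm
        · intro h
          exact Quotient.sound (s := Equiv.Perm.SameCycle.setoid π) h.symm
      rw [h6]
      have h7 := mp_pos π x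
      have h8 : (Function.minimalPeriod π x : ℚ) ≠ 0 := by positivity
      field_simp
  rw [Finset.sum_congr rfl (fun q _ => h2 q)]
  simp

theorem fixN_eq (N : ℕ) (π : Equiv.Perm X) : fixN N π = N ^ orb π := by
  classical
  have : Fintype (Quotient (Equiv.Perm.SameCycle.setoid π)) := Fintype.ofFinite _
  have e : {f : X → Fin N // ∀ x, f (π x) = f x} ≃
      (Quotient (Equiv.Perm.SameCycle.setoid π) → Fin N) :=
    { toFun := fun f => Quotient.lift f.1 (by
        rintro a b ⟨i, rfl⟩
        have h1 : ∀ (n : ℕ) (x : X), f.1 ((π ^ n) x) = f.1 x := by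
          intro n
          induction n with
          | zero => intro x; simp
          | succ n ih => intro x; rw [pow_succ', Equiv.Perm.mul_apply, f.2, ih]
        cases i with
        | ofNat n => exact (h1 n a).symm
        | negSucc n =>
          have h2 := h1 (n + 1) ((π ^ (Int.negSucc n)) a)
          rw [← Equiv.Perm.mul_apply, zpow_negSucc, mul_inv_cancel, Equiv.Perm.one_apply] at h2
          rw [zpow_negSucc]
          exact h2)
      invFun := fun g => ⟨fun x => g (Quotient.mk _ x), fun x => by
        have h : Equiv.Perm.SameCycle π (π x) x := ⟨-1, by simp⟩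
        exact congrArg g (Quotient.sound (s := Equiv.Perm.SameCycle.setoid π) h)⟩
      left_inv := fun f => by
        ext x
        rfl
      right_inv := fun g => by
        ext q
        induction q using Quotient.inductionOn with
        | h x => rfl }
  rw [fixN, Nat.card_congr e, Nat.card_eq_fintype_card, Fintype.card_fun, orb,
    Nat.card_eq_fintype_card, Fintype.card_fin]

theorem orb_le (π : Equiv.Perm X) : orb π ≤ Fintype.card X := by
  rw [orb, ← Nat.card_eq_fintype_card]
  exact Nat.card_le_card_of_surjective _ (Quotient.mk_surjective (s := Equiv.Perm.SameCycle.setoid π))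

theorem orb_inv (π : Equiv.Perm X) : orb π⁻¹ = orb π := by
  classical
  have h1 := sum_recip π
  have h2 := sum_recip π⁻¹
  have h3 : ∀ d, Function.minimalPeriod (π⁻¹ : Equiv.Perm X) d = Function.minimalPeriod π d := by
    intro d
    rw [mp_eq_card, mp_eq_card]
    apply Nat.card_congr
    refine Equiv.subtypeEquivRight ?_
    intro e
    exact Equiv.Perm.sameCycle_inv
  simp only [h3] at h2
  rw [h1] at h2
  exact_mod_cast h2.symm

omit [Fintype X] in
theorem mp_conj {Y : Type} (e : X ≃ Y) (π : Equiv.Perm X) (x : X) :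
    Function.minimalPeriod (e.permCongr π) (e x) = Function.minimalPeriod π x := by
  rw [Function.minimalPeriod_eq_minimalPeriod_iff]
  intro n
  have h : ∀ n : ℕ, (e.permCongr π)^[n] (e x) = e (π^[n] x) := by
    intro n
    induction n with
    | zero => rfl
    | succ n ih => rw [Function.iterate_succ_apply', Function.iterate_succ_apply', ih]; simp
  simp only [Function.IsPeriodicPt, Function.IsFixedPt, h, EmbeddingLike.apply_eq_iff_eq]

theorem orb_conj {Y : Type} [Fintype Y] (e : X ≃ Y) (π : Equiv.Perm X) :
    orb (e.permCongr π) = orb π := by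
  have h1 := sum_recip π
  have h2 := sum_recip (e.permCongr π)
  rw [← Equiv.sum_comp e] at h2
  simp only [mp_conj] at h2
  rw [h1] at h2
  exact_mod_cast h2.symm

theorem orb_conj' (g π : Equiv.Perm X) : orb (g * π * g⁻¹) = orb π := by
  rw [← orb_conj g π]
  rfl

/-- `orb (π⁻¹ b) = orb (π b)` for an involution `b`. -/
theorem orb_inv_mul (π b : Equiv.Perm X) (hb : b * b = 1) : orb (π⁻¹ * b) = orb (π * b) := by
  have hb' : b⁻¹ = b := inv_eq_of_mul_eq_one_left hb
  rw [← orb_inv (π⁻¹ * b), mul_inv_rev, inv_inv, hb', ← orb_conj' b (π * b), hb']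
  congr 1
  rw [mul_assoc, mul_assoc, hb, mul_one]

/-- Transitivity in terms of invariant sets. -/
theorem trans_iff (p : Equiv.Perm X × Equiv.Perm X) :
    Trans p ↔ ∀ S : Set X, S.Nonempty → (∀ x ∈ S, p.1 x ∈ S ∧ p.2 x ∈ S) → ∀ y, y ∈ S := by
  classical
  constructor
  · rintro h S ⟨x, hx⟩ hS y
    obtain ⟨w, hw, rfl⟩ := h x y
    have hfin : ∀ (π : Equiv.Perm X), (∀ x ∈ S, π x ∈ S) → ∀ x ∈ S, π⁻¹ x ∈ S := by
      intro π hπ x hx
      exact Equiv.Perm.perm_symm_on_of_perm_on_finite (f := π) (p := fun x => x ∈ S) hπ hx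
    have key : ∀ w ∈ Subgroup.closure ({p.1, p.2} : Set (Equiv.Perm X)), ∀ x ∈ S, w x ∈ S := by
      intro w hw
      induction hw using Subgroup.closure_induction with
      | mem g hg =>
        intro x hx
        simp only [Set.mem_insert_iff, Set.mem_singleton_iff] at hg
        rcases hg with rfl | rfl
        · exact (hS x hx).1
        · exact (hS x hx).2
      | one => intro x hx; simpa using hx
      | mul g h _ _ hg hh => intro x hx; exact hg _ (hh _ hx)
      | inv g _ hg => exact hfin g hg
    exact key w hw x hx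
  · intro h d e
    have := h {y | ∃ w ∈ Subgroup.closure ({p.1, p.2} : Set (Equiv.Perm X)), w d = y}
      ⟨d, 1, Subgroup.one_mem _, rfl⟩ ?_ e
    · exact this
    · rintro x ⟨w, hw, rfl⟩
      exact ⟨⟨p.1 * w, Subgroup.mul_mem _ (Subgroup.subset_closure (by simp)) hw, rfl⟩,
        ⟨p.2 * w, Subgroup.mul_mem _ (Subgroup.subset_closure (by simp)) hw, rfl⟩⟩

end Pool.Agent.H48.Quad
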